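import Mathlib

set_option autoImplicit false

/-!
Common eigenvectors of commuting endomorphisms, and measurable characters of the real line.
-/

namespace Pool.Agent.Zk91.PF

open Complex MeasureTheory Set Filter Topology

universe u

theorem common_aux {ι : Type*} (N : ℕ) : ∀ (V : Type u) [AddCommGroup V] [Module ℂ V]
    [FiniteDimensional ℂ V] [Nontrivial V], Module.finrank ℂ V ≤ N →
    ∀ (f : ι → Module.End ℂ V), (∀ i j, Commute (f i) (f j)) →
      ∃ v : V, v ≠ 0 ∧ ∀ i, ∃ c : ℂ, f i v = c • v := by
  induction N with
  | zero =>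
    intro V _ _ _ _ hN f hf
    have := Module.finrank_pos (R := ℂ) (M := V)
    omega
  | succ N ih =>
    intro V _ _ _ _ hN f hf
    by_cases h : ∀ i, ∃ c : ℂ, ∀ v, f i v = c • v
    · obtain ⟨v, hv⟩ := exists_ne (0 : V)
      refine ⟨v, hv, fun i => ?_⟩
      obtain ⟨c, hc⟩ := h i
      exact ⟨c, hc v⟩
    · push Not at h
      obtain ⟨i, hi⟩ := h
      obtain ⟨c, hc⟩ := Module.End.exists_eigenvalue (f i)
      obtain ⟨E, hE⟩ : ∃ E : Submodule ℂ V, E = Module.End.eigenspace (f i) c := ⟨_, rfl⟩
      have hmem : ∀ x, x ∈ E ↔ f i x = c • x := fun x => by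
        rw [hE]; exact Module.End.mem_eigenspace_iff
      have hbot : E ≠ ⊥ := by rw [hE]; exact hc
      have htop : E ≠ ⊤ := by
        intro h
        obtain ⟨v, hv⟩ := hi c
        apply hv
        rw [← hmem, h]
        trivial
      have hlt : Module.finrank ℂ E < Module.finrank ℂ V := Submodule.finrank_lt htop
      have hnt : Nontrivial E := (Submodule.nontrivial_iff_ne_bot).2 hbot
      have hinv : ∀ j, ∀ x ∈ E, f j x ∈ E := by
        intro j x hx
        rw [hmem] at hx ⊢
        have h1 : f i (f j x) = f j (f i x) := by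
          have := congrArg (fun g : Module.End ℂ V => g x) (hf i j).eq
          exact this
        rw [h1, hx, map_smul]
      obtain ⟨v, hv, hv2⟩ := ih E (by omega) (fun j => (f j).restrict (hinv j)) (by
        intro j k
        apply LinearMap.ext
        intro x
        apply Subtype.ext
        exact congrArg (fun g : Module.End ℂ V => g (x : V)) (hf j k).eq)
      refine ⟨v, fun h0 => hv (Subtype.ext h0), fun j => ?_⟩
      obtain ⟨d, hd⟩ := hv2 j
      exact ⟨d, congrArg Subtype.val hd⟩

/-- Commuting endomorphisms of a nonzero finite dimensional complex space have a common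
eigenvector. -/
theorem exists_common {ι : Type*} {V : Type u} [AddCommGroup V] [Module ℂ V]
    [FiniteDimensional ℂ V] [Nontrivial V] (f : ι → Module.End ℂ V)
    (hf : ∀ i j, Commute (f i) (f j)) : ∃ v : V, v ≠ 0 ∧ ∀ i, ∃ c : ℂ, f i v = c • v :=
  common_aux _ V le_rfl f hf

/-- Measurable unimodular characters of the real line are exponential. -/
theorem exists_freq {l : ℝ → ℂ} (hm : Measurable l) (hn : ∀ t, ‖l t‖ = 1)
    (hadd : ∀ s t, l (s + t) = l s * l t) :
    ∃ ω : ℝ, ∀ t, l t = exp (((ω * t : ℝ) : ℂ) * I) := by
  have hint : ∀ a b : ℝ, IntervalIntegrable l volume a b := by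
    intro a b
    refine IntervalIntegrable.mono_fun (intervalIntegrable_const (c := (1 : ℝ)))
      hm.aestronglyMeasurable ?_
    filter_upwards with t
    rw [hn, norm_one]
  have hloc : LocallyIntegrable l volume := by
    refine LocallyIntegrable.mono (locallyIntegrable_const (1 : ℝ)) hm.aestronglyMeasurable ?_
    filter_upwards with t
    rw [hn, norm_one]
  obtain ⟨J, hJ⟩ : ∃ J : ℝ → ℂ, J = fun t => ∫ s in (0 : ℝ)..t, l s := ⟨_, rfl⟩
  -- some integral does not vanish
  obtain ⟨a, ha⟩ : ∃ a, J a ≠ 0 := by
    by_contra h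
    push Not at h
    have h1 := _root_.LocallyIntegrable.ae_hasDerivAt_integral hloc
    have h2 : ∀ᵐ x : ℝ, False := by
      filter_upwards [h1] with x hx
      have h3 := hx 0
      have h4 : (fun t => ∫ s in (0 : ℝ)..t, l s) = fun _ => 0 := by
        funext t
        have := h t
        rw [hJ] at this
        exact this
      rw [h4] at h3
      have h5 : l x = 0 := h3.unique (hasDerivAt_const x 0)
      have h6 := hn x
      rw [h5, norm_zero] at h6
      exact zero_ne_one h6
    rw [ae_iff] at h2
    simp at h2
  have hl0 : l 0 = 1 := by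
    have h1 := hadd 0 0
    rw [add_zero] at h1
    have h2 : l 0 ≠ 0 := fun h => by
      have := hn 0
      rw [h, norm_zero] at this
      exact zero_ne_one this
    field_simp at h1
    exact h1.symm
  have hform : ∀ t, l t * J a = J (t + a) - J t := by
    intro t
    have h1 : ∫ s in (0 : ℝ)..a, l (t + s) = ∫ s in (t + 0)..(t + a), l s :=
      intervalIntegral.integral_comp_add_left l t
    have h2 : ∫ s in (0 : ℝ)..a, l (t + s) = l t * J a := by
      rw [hJ]
      rw [← intervalIntegral.integral_const_mul]
      exact intervalIntegral.integral_congr fun s _ => hadd t s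
    rw [← h2, h1, add_zero, hJ]
    have h3 := intervalIntegral.integral_add_adjacent_intervals (hint 0 t) (hint t (t + a))
    simp only
    rw [← h3]
    ring
  have hJc : Continuous J := by
    rw [hJ]
    exact intervalIntegral.continuous_primitive hint 0
  have hlc : Continuous l := by
    have h1 : l = fun t => (J (t + a) - J t) / J a := by
      funext t
      rw [eq_div_iff ha]
      exact hform t
    rw [h1]
    exact ((hJc.comp (continuous_add_const a)).sub hJc).div_const _
  have hJd : ∀ t, HasDerivAt J (l t) t := by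
    intro t
    rw [hJ]
    exact intervalIntegral.integral_hasDerivAt_right (hint 0 t)
      hlc.stronglyMeasurable.stronglyMeasurableAtFilter hlc.continuousAt
  obtain ⟨c, hc⟩ : ∃ c : ℂ, c = (l a - 1) / J a := ⟨_, rfl⟩
  have hld : ∀ t, HasDerivAt l (c * l t) t := by
    intro t
    have h1 : HasDerivAt (fun t => (J (t + a) - J t) / J a) ((l (t + a) - l t) / J a) t := by
      refine HasDerivAt.div_const (HasDerivAt.sub ?_ (hJd t)) _
      exact (hJd (t + a)).comp_add_const t a
    have h2 : l = fun t => (J (t + a) - J t) / J a := by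
      funext t
      rw [eq_div_iff ha]
      exact hform t
    have h3 : c * l t = (l (t + a) - l t) / J a := by
      rw [hc, hadd]
      ring
    rw [h3]
    rw [← h2] at h1
    exact h1
  have hconst : ∀ t : ℝ, l t * exp (-(c * t)) = 1 := by
    have hd : ∀ t : ℝ, HasDerivAt (fun t : ℝ => l t * exp (-(c * t))) 0 t := by
      intro t
      have h1 : HasDerivAt (fun t : ℝ => exp (-(c * (t : ℂ)))) (exp (-(c * t)) * (-(c * 1))) t := by
        have h2 : HasDerivAt (fun t : ℝ => -(c * (t : ℂ))) (-(c * 1)) t :=
          ((hasDerivAt_id t).ofReal_comp.const_mul c).neg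
        exact h2.cexp
      have h2 := (hld t).mul h1
      have h3 : c * l t * exp (-(c * t)) + l t * (exp (-(c * t)) * (-(c * 1))) = 0 := by ring
      rw [h3] at h2
      exact h2
    intro t
    have h1 : (fun t : ℝ => l t * exp (-(c * t))) t = (fun t : ℝ => l t * exp (-(c * t))) 0 :=
      is_const_of_deriv_eq_zero (fun t => (hd t).differentiableAt) (fun t => (hd t).deriv) t 0
    simp only at h1
    rw [h1, hl0]
    simp
  have hexp : ∀ t : ℝ, l t = exp (c * t) := by
    intro t
    have h1 := hconst t
    rw [Complex.exp_neg] at h1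
    field_simp at h1
    exact h1
  have hre : c.re = 0 := by
    have h1 := hn 1
    rw [hexp, Complex.norm_exp] at h1
    have h2 : (c * ((1 : ℝ) : ℂ)).re = c.re := by simp
    rw [h2] at h1
    have := Real.exp_eq_one_iff c.re |>.1 h1
    exact this
  refine ⟨c.im, fun t => ?_⟩
  rw [hexp]
  congr 1
  apply Complex.ext
  · simp [hre]
  · simp

end Pool.Agent.Zk91.PF
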