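import Pool.Agent.Zk91.PF.Ker2
import Pool.Agent.Zk91.PF.Lin

set_option autoImplicit false

/-!
A nonzero integral operator whose bounded hermitian kernel is invariant under a measurable
measure preserving flow has a bounded eigenfunction which is an eigenfunction of the flow.
-/

namespace Pool.Agent.Zk91.PF

open MeasureTheory Set Filter Topology
open scoped ENNReal NNReal ComplexConjugate

variable {Y : Type*} [MeasurableSpace Y] {ν : Measure Y} [IsFiniteMeasure ν]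

theorem exists_eig {T : Lp ℂ 2 ν →L[ℂ] Lp ℂ 2 ν} {k : Y × Y → ℂ} (hT : Rep ν T k)
    (hT0 : T ≠ 0) (hk : Measurable k) {C : ℝ} (hC : ∀ p, ‖k p‖ ≤ C)
    (hh : ∀ y y', k (y', y) = conj (k (y, y')))
    {S : ℝ → Y → Y} (hSm : Measurable (fun p : ℝ × Y => S p.1 p.2))
    (hS : ∀ t, MeasurePreserving (S t) ν ν)
    (hadd : ∀ s t y, S (s + t) y = S s (S t y))
    (hinv : ∀ t y y', k (S t y, S t y') = k (y, y')) :
    ∃ (ω : ℝ) (g : Y → ℂ) (μ : ℂ), Measurable g ∧ (∀ y, ‖g y‖ ≤ 1) ∧ μ ≠ 0 ∧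
      (∀ t, ∀ᵐ y ∂ν, g (S t y) = Complex.exp (((ω * t : ℝ) : ℂ) * Complex.I) * g y) ∧
      (∀ᵐ y ∂ν, ∫ y', k (y, y') * g y' ∂ν = μ * g y) ∧ ¬ (∀ᵐ y ∂ν, g y = 0) := by
  have hcpt : IsCompactOperator T := cpt_bdd hk hC T hT
  have hsym : T.IsSymmetric := hT.symm hk hC hh
  -- a nonzero eigenvalue
  obtain ⟨μ, hμ, hμ0⟩ : ∃ μ, Module.End.HasEigenvalue (T : Module.End ℂ (Lp ℂ 2 ν)) μ ∧
      μ ≠ 0 := by
    by_contra h
    push Not at h
    exact hT0 ((ContinuousLinearMap.eq_zero_of_forall_hasEigenvalue_eq_zero hcpt hsym).1 h)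
  obtain ⟨V, hV⟩ : ∃ V : Submodule ℂ (Lp ℂ 2 ν),
      V = Module.End.eigenspace (T : Module.End ℂ (Lp ℂ 2 ν)) μ := ⟨_, rfl⟩
  have hmem : ∀ x, x ∈ V ↔ T x = μ • x := fun x => by
    rw [hV]; exact Module.End.mem_eigenspace_iff
  have hVn : V ≠ ⊥ := by rw [hV]; exact hμ
  have : Nontrivial V := (Submodule.nontrivial_iff_ne_bot).2 hVn
  have : FiniteDimensional ℂ V := by
    rw [hV]; exact ContinuousLinearMap.finite_dimensional_eigenspace hcpt μ hμ0
  -- the Koopman operators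
  obtain ⟨U, hU⟩ : ∃ U : ℝ → Lp ℂ 2 ν →ₗ[ℂ] Lp ℂ 2 ν,
      ∀ t g, U t g = Lp.compMeasurePreserving (S t) (hS t) g :=
    ⟨fun t => Lp.compMeasurePreservingₗ ℂ (S t) (hS t), fun t g => rfl⟩
  have hUae : ∀ t g, U t g =ᵐ[ν] fun y => g (S t y) := fun t g => by
    rw [hU]; exact Lp.coeFn_compMeasurePreserving g (hS t)
  have hUn : ∀ t g, ‖U t g‖ = ‖g‖ := fun t g => by
    rw [hU]; exact Lp.norm_compMeasurePreserving g (hS t)
  have hUadd : ∀ s t g, U t (U s g) = U (s + t) g := by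
    intro s t g
    apply Lp.ext
    have h1 : ∀ᵐ y ∂ν, (U s g) (S t y) = g (S s (S t y)) :=
      (hS t).quasiMeasurePreserving.ae (hUae s g)
    filter_upwards [hUae t (U s g), hUae (s + t) g, h1] with y h2 h3 h4
    rw [h2, h3, h4, hadd]
  have hUV : ∀ t, ∀ x ∈ V, U t x ∈ V := by
    intro t x hx
    rw [hmem] at hx ⊢
    rw [hU, hT.comm hk (hS t) (hinv t) x, ← hU, hx, ← hU, map_smul]
  obtain ⟨v, hv0, hv⟩ := exists_common (V := V) (fun t => (U t).restrict (hUV t)) (by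
    intro s t
    apply LinearMap.ext
    intro x
    apply Subtype.ext
    change U s (U t (x : Lp ℂ 2 ν)) = U t (U s (x : Lp ℂ 2 ν))
    rw [hUadd, hUadd, add_comm])
  choose c hc using hv
  obtain ⟨g0, hg0⟩ : ∃ g0 : Lp ℂ 2 ν, g0 = (v : Lp ℂ 2 ν) := ⟨_, rfl⟩
  have hg0ne : g0 ≠ 0 := by
    rw [hg0]
    intro h
    exact hv0 (Subtype.ext h)
  have hcU : ∀ t, U t g0 = c t • g0 := fun t => by
    have := congrArg Subtype.val (hc t)
    rw [hg0]
    exact this
  have hTg : T g0 = μ • g0 := (hmem g0).1 (by rw [hg0]; exact v.2)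
  have hgn : 0 < ‖g0‖ := norm_pos_iff.2 hg0ne
  have hcn : ∀ t, ‖c t‖ = 1 := by
    intro t
    have h1 := hUn t g0
    rw [hcU, norm_smul] at h1
    exact mul_right_cancel₀ hgn.ne' (by rw [h1, one_mul])
  have hcadd : ∀ s t, c (s + t) = c s * c t := by
    intro s t
    have h1 := hUadd s t g0
    rw [hcU s, map_smul, hcU t, hcU (s + t), smul_smul] at h1
    exact (smul_left_injective ℂ hg0ne h1).symm
  have hgae : ∀ t, ∀ᵐ y ∂ν, g0 (S t y) = c t * g0 y := by
    intro t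
    have h1 := hUae t g0
    rw [hcU t] at h1
    filter_upwards [h1, Lp.coeFn_smul (c t) g0] with y h2 h3
    rw [← h2, h3, Pi.smul_apply, smul_eq_mul]
  have hgm : Measurable (g0 : Y → ℂ) := (Lp.stronglyMeasurable g0).measurable
  have hint : Integrable (fun y => conj (g0 y) * g0 y) ν := by
    have h1 := (Lp.memLp g0).integrable_norm_rpow (by norm_num) (by norm_num)
    refine Integrable.mono h1 ?_ ?_
    · exact ((RCLike.continuous_conj.measurable.comp hgm).mul hgm).aestronglyMeasurable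
    · filter_upwards with y
      rw [norm_mul, RCLike.norm_conj, Real.norm_eq_abs, abs_of_nonneg (by positivity)]
      simp [pow_two]
  have hcm : Measurable c := by
    have hN : ∫ y, conj (g0 y) * g0 y ∂ν ≠ 0 := by
      have h1 : (inner ℂ g0 g0 : ℂ) = ∫ y, conj (g0 y) * g0 y ∂ν := by
        rw [L2.inner_def]
        refine integral_congr_ae ?_
        filter_upwards with y
        rw [RCLike.inner_apply, mul_comm]
      rw [← h1]
      exact inner_self_ne_zero.2 hg0ne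
    have h1 : ∀ t, c t = (∫ y, conj (g0 y) * g0 (S t y) ∂ν) / ∫ y, conj (g0 y) * g0 y ∂ν := by
      intro t
      rw [eq_div_iff hN, ← integral_const_mul]
      refine integral_congr_ae ?_
      filter_upwards [hgae t] with y hy
      rw [hy]
      ring
    have h2 : c = fun t => (∫ y, conj (g0 y) * g0 (S t y) ∂ν) /
        ∫ y, conj (g0 y) * g0 y ∂ν := funext h1
    rw [h2]
    refine Measurable.div_const ?_ _
    have h3 : StronglyMeasurable (fun p : ℝ × Y => conj (g0 p.2) * g0 (S p.1 p.2)) :=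
      (((RCLike.continuous_conj.measurable.comp hgm).comp measurable_snd).mul
        (hgm.comp hSm)).stronglyMeasurable
    exact h3.integral_prod_right.measurable
  obtain ⟨ω, hω⟩ := exists_freq hcm hcn hcadd
  -- bounded representative
  obtain ⟨M, hM1, hM⟩ : ∃ M : ℝ, 0 < M ∧ ∀ y, ‖∫ y', k (y, y') * g0 y' ∂ν‖ ≤ M := by
    have hg1 : Integrable (g0 : Y → ℂ) ν := (Lp.memLp g0).integrable (by norm_num)
    refine ⟨|C| * ∫ y', ‖g0 y'‖ ∂ν + 1, ?_, fun y => ?_⟩
    · have h1 : 0 ≤ ∫ y', ‖g0 y'‖ ∂ν := integral_nonneg fun y => norm_nonneg _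
      have := mul_nonneg (abs_nonneg C) h1
      linarith
    · have h2 : ‖∫ y', k (y, y') * g0 y' ∂ν‖ ≤ ∫ y', |C| * ‖g0 y'‖ ∂ν := by
        refine norm_integral_le_of_norm_le (hg1.norm.const_mul _) ?_
        filter_upwards with y'
        rw [norm_mul]
        exact mul_le_mul_of_nonneg_right ((hC _).trans (le_abs_self C)) (norm_nonneg _)
      rw [integral_const_mul] at h2
      linarith
  obtain ⟨g, hg⟩ : ∃ g : Y → ℂ, g = fun y => (M : ℂ)⁻¹ * ∫ y', k (y, y') * g0 y' ∂ν := ⟨_, rfl⟩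
  obtain ⟨d, hd⟩ : ∃ d : ℂ, d = (M : ℂ)⁻¹ * μ := ⟨_, rfl⟩
  have hM0 : (M : ℂ) ≠ 0 := by exact_mod_cast hM1.ne'
  have hd0 : d ≠ 0 := by rw [hd]; exact mul_ne_zero (inv_ne_zero hM0) hμ0
  have hgg : ∀ᵐ y ∂ν, g y = d * g0 y := by
    have h1 := hT g0
    rw [hTg] at h1
    filter_upwards [h1, Lp.coeFn_smul μ g0] with y h2 h3
    rw [hg]
    simp only
    rw [← h2, h3, Pi.smul_apply, smul_eq_mul, hd]
    ring
  refine ⟨ω, g, μ, ?_, ?_, hμ0, ?_, ?_, ?_⟩
  · rw [hg]
    exact ((meas_opf hk g0).measurable).const_mul _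
  · intro y
    rw [hg]
    simp only
    rw [norm_mul, norm_inv, Complex.norm_real, Real.norm_eq_abs, abs_of_pos hM1]
    rw [inv_mul_le_iff₀ hM1, mul_one]
    exact hM y
  · intro t
    have h1 : ∀ᵐ y ∂ν, g (S t y) = d * g0 (S t y) := (hS t).quasiMeasurePreserving.ae hgg
    filter_upwards [h1, hgg, hgae t] with y h2 h3 h4
    rw [h2, h3, h4, hω]
    ring
  · have h1 := hT g0
    rw [hTg] at h1
    filter_upwards [h1, Lp.coeFn_smul μ g0, hgg] with y h2 h3 h4
    have h5 : ∫ y', k (y, y') * g y' ∂ν = d * ∫ y', k (y, y') * g0 y' ∂ν := by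
      rw [← integral_const_mul]
      refine integral_congr_ae ?_
      filter_upwards [hgg] with y' hy'
      rw [hy']
      ring
    rw [h5, ← h2, h3, h4, Pi.smul_apply, smul_eq_mul]
    ring
  · intro h
    apply hg0ne
    apply Lp.ext
    filter_upwards [h, hgg, Lp.coeFn_zero ℂ 2 ν] with y h1 h2 h3
    rw [h3]
    rw [h1] at h2
    exact (mul_eq_zero.1 h2.symm).resolve_left hd0

end Pool.Agent.Zk91.PF
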