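import Pool.Agent.TH578.BE.Flow
import Pool.Agent.TH578.BE.Fin

set_option autoImplicit false

/-!
Functions on the product of the phase space and a set with a flow which are invariant under the
product motion; their integrals over the phase space are invariant under the flow.
-/

namespace Pool.Agent.Zk91.PF

open Complex Set MeasureTheory Filter Topology Pool.Agent.W780.PG Pool.Agent.W780.BB
open Pool.Agent.W174.PG Pool.Agent.W82.BB Pool.Agent.TH578.BE

open scoped Real ComplexConjugate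

variable {n : ℕ} {Z β : Type*}

/-- invariance under the product motion -/
structure PInv (p : Fin (n + 3) → ℂ) (R : ℝ → Z → Z) (φ : ℂ × ℝ → Z → β) : Prop where
  periodic : ∀ (z : ℂ) (θ : ℝ) (η : Z), φ (z, θ + 2 * π) η = φ (z, θ) η
  free : ∀ (z : ℂ) (θ s : ℝ) (η : Z), z ∈ region p → z + s • dir θ ∈ region p →
    φ (z + s • dir θ, θ) (R s η) = φ (z, θ) η
  reflect : ∀ i, ∀ y ∈ openSegment ℝ (p i) (p (i + 1)), ∀ (θ s r : ℝ) (η : Z), 0 < s → 0 < r →
    y - s • dir θ ∈ region p → y + r • dir (2 * tau p i - θ) ∈ region p →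
    φ (y + r • dir (2 * tau p i - θ), 2 * tau p i - θ) (R (s + r) η) = φ (y - s • dir θ, θ) η

theorem pinv_gen (hR : S_Ref) {p : Fin (n + 3) → ℂ} (hp : IsConvexPolygon p)
    (hreg : region p = reg p) {R : ℝ → Z → Z} (hR0 : ∀ η, R 0 η = η)
    (hRa : ∀ s t η, R (s + t) η = R s (R t η)) {φ : ℂ × ℝ → Z → β} (hS : PInv p R φ) :
    ∀ (w : List (Fin (n + 3))) (y : ℂ) (θ s r : ℝ) (η : Z), y + (r * s) • dir θ ∈ reg p →
      Ch p w y (y + s • dir θ) →
      φ (fd p w (y + s • dir θ, θ)) (R (s - r * s) η) = φ (y + (r * s) • dir θ, θ) η := by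
  obtain ⟨-, -, hR3, hR4, hR5, -⟩ := hR n p hp
  intro w
  induction w with
  | nil =>
    intro y θ s r η hz hA
    have h1 := hS.free (y + (r * s) • dir θ) θ (s - r * s) η (by rw [hreg]; exact hz)
    have e : y + (r * s) • dir θ + (s - r * s) • dir θ = y + s • dir θ := by
      rw [add_assoc, ← add_smul]; congr 2; ring
    rw [e, hreg] at h1
    exact h1 hA
  | cons i w ih =>
    intro y θ s r η hz hCh
    obtain ⟨hy, hA, hc, hCh'⟩ := hCh
    obtain ⟨A, hAdef⟩ : ∃ A : ℂ, A = y + s • dir θ := ⟨_, rfl⟩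
    obtain ⟨t, ht⟩ : ∃ t : ℝ, t = sf p i y / (sf p i y - sf p i A) := ⟨_, rfl⟩
    rw [← hAdef] at hA hc hCh'
    have hAy : A - y = s • dir θ := by rw [hAdef]; ring
    have hden : 0 < sf p i y - sf p i A := by linarith
    have ht0 : 0 < t := by rw [ht]; exact div_pos hy hden
    have ht1 : t < 1 := by rw [ht, div_lt_one hden]; linarith
    have hcr : cr p i y A = y + (t * s) • dir θ := by
      unfold cr
      rw [← ht, hAy, smul_smul]
    have hc0 : sf p i (cr p i y A) = 0 := by
      have h1 : cr p i y A = y + t • (A - y) := by unfold cr; rw [← ht]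
      rw [h1, sf_line, ht]
      field_simp
      ring
    obtain ⟨c, hcdef⟩ : ∃ c : ℂ, c = cr p i y A := ⟨_, rfl⟩
    rw [← hcdef] at hc hc0 hCh' hcr
    have hside : c ∈ side p i := mem_side hp hc0 hc
    have hr : r < t := by
      have h1 := hz i
      have h2 : y + (r * s) • dir θ = y + r • (A - y) := by rw [hAy, smul_smul]
      rw [h2] at h1
      have h3 := sf_line p i y A r
      unfold sf at h3
      rw [h3] at h1
      have h4 : (1 - r) * sf p i y + r * sf p i A > 0 := h1
      rw [ht, lt_div_iff₀ hden]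
      linarith
    -- the next piece
    have hrfc : rf p i c = c := hR4 i c hc0
    have hA2 : A = c + ((1 - t) * s) • dir θ := by
      rw [hcr, hAdef, add_assoc, ← add_smul]
      congr 2
      ring
    have hrfA : rf p i A = c + ((1 - t) * s) • dir (2 * tau p i - θ) := by
      conv_lhs => rw [hA2]
      rw [hR5, hrfc]
    have hsfA : 0 < sf p i (rf p i A) := by rw [hR3]; linarith
    obtain ⟨u, hu0, hu1, hu⟩ := small_step hc0 hc hsfA
    have hu' : c + (u * ((1 - t) * s)) • dir (2 * tau p i - θ) ∈ reg p := by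
      have e : c + u • (rf p i A - c) = c + (u * ((1 - t) * s)) • dir (2 * tau p i - θ) := by
        rw [hrfA, add_sub_cancel_left, smul_smul]
      rwa [e] at hu
    obtain ⟨a, ha⟩ : ∃ a : ℝ, a = (t - r) * s + u * ((1 - t) * s) := ⟨_, rfl⟩
    have hIH := ih c (2 * tau p i - θ) ((1 - t) * s) u (R a η) hu' (by rw [← hrfA]; exact hCh')
    have hsum : (1 - t) * s - u * ((1 - t) * s) + a = s - r * s := by rw [ha]; ring
    rw [← hRa, hsum] at hIH
    have hfd : fd p (i :: w) (A, θ) = fd p w (c + ((1 - t) * s) • dir (2 * tau p i - θ), 2 * tau p i - θ) := by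
      rw [← hrfA]
      rfl
    rw [← hAdef, hfd, hIH]
    have hz' : y + (r * s) • dir θ = c - ((t - r) * s) • dir θ := by
      rw [hcr]
      have : (r * s) = t * s - (t - r) * s := by ring
      rw [this, sub_smul]
      ring
    have htr : 0 < t - r := by linarith
    have h1t : 0 < 1 - t := by linarith
    rcases lt_trichotomy s 0 with hs | hs | hs
    · -- backward motion
      have h1 := hS.reflect i c hside (2 * tau p i - θ) (-(u * ((1 - t) * s))) (-((t - r) * s))
        (R a η)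
        (by nlinarith [mul_pos hu0 h1t, mul_neg_of_pos_of_neg (mul_pos hu0 h1t) hs]) (by nlinarith)
      have e1 : 2 * tau p i - (2 * tau p i - θ) = θ := by ring
      have e2 : c - (-(u * ((1 - t) * s))) • dir (2 * tau p i - θ) =
          c + (u * ((1 - t) * s)) • dir (2 * tau p i - θ) := by
        rw [neg_smul, sub_neg_eq_add]
      have e3 : c + (-((t - r) * s)) • dir θ = c - ((t - r) * s) • dir θ := by
        rw [neg_smul]; ring
      rw [e1, e2, e3, hreg, ← hz'] at h1
      have h2 := h1 hu' hz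
      have e4 : -(u * ((1 - t) * s)) + -((t - r) * s) + a = 0 := by rw [ha]; ring
      rw [← hRa, e4, hR0] at h2
      exact h2.symm
    · exfalso
      rw [hs, zero_smul, add_zero] at hAdef
      rw [hAdef] at hA
      linarith
    · have h1 := hS.reflect i c hside θ ((t - r) * s) (u * ((1 - t) * s)) η
        (mul_pos htr hs) (mul_pos hu0 (mul_pos h1t hs))
      rw [hreg, ← hz', ← ha] at h1
      exact h1 hz hu'

/-- Invariance along itineraries. -/
theorem pinv_it (hR : S_Ref) {p : Fin (n + 3) → ℂ} (hp : IsConvexPolygon p)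
    (hreg : region p = reg p) {R : ℝ → Z → Z} (hR0 : ∀ η, R 0 η = η)
    (hRa : ∀ s t η, R (s + t) η = R s (R t η)) {φ : ℂ × ℝ → Z → β} (hS : PInv p R φ)
    (w : List (Fin (n + 3))) (z : ℂ) (θ s : ℝ) (η : Z) (hz : z ∈ reg p)
    (hCh : Ch p w z (z + s • dir θ)) :
    φ (fd p w (z + s • dir θ, θ)) (R s η) = φ (z, θ) η := by
  have h := pinv_gen hR hp hreg hR0 hRa hS w z θ s 0 η (by simpa using hz) hCh
  simpa using h

theorem lint_le {p : Fin (n + 3) → ℂ} (hp : IsConvexPolygon p) {R : ℝ → Z → Z}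
    (hR0 : ∀ η, R 0 η = η) (hRa : ∀ s t η, R (s + t) η = R s (R t η)) {φ : ℂ × ℝ → Z → ℝ}
    (hS : PInv p R φ) (hm : ∀ η, Measurable (fun x => φ x η)) (h0 : ∀ x η, 0 ≤ φ x η)
    (s : ℝ) (η : Z) :
    ∫⁻ x in phase p, ENNReal.ofReal (φ x η) ≤ ∫⁻ x in phase p, ENNReal.ofReal (φ x (R s η)) := by
  have hB : S_Basic := Pool.Agent.W174.PG.basic
  have hH : S_Hull := Pool.Agent.W975.PG.hull hB
  have hR : S_Ref := Pool.Agent.W347.BB.ref
  have hM : S_Mp := Pool.Agent.W333.BB.mp
  have hO : S_Open := Pool.Agent.W762.BB.open_it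
  have hU : S_Uniq := Pool.Agent.W108.BB.uniq
  have hVr : S_Rev := W973.BB.rev hR
  have hUnif : S_Unif :=
    Pool.Agent.W12.BB.Unif.unif W327.BB.alt (Pool.Agent.W340.BB.Trip.trip hR hB)
  have hEx : S_Exist := Pool.Agent.W345.BB.exist hR Pool.Agent.W337.BB.exit_th hUnif
  have hG : S_Gen := Pool.Agent.W337.BB.gen_th
  have hFl : S_Flow := Pool.Agent.W462.BBF.flow hR hM hO hU hVr hH hB
  have hrr : region p = reg p := (hH n p hp).2
  have hopen : IsOpen (reg p) := (hB n p hp).2.1
  have hregm : MeasurableSet (region p) := by rw [hrr]; exact hopen.measurableSet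
  have hph : MeasurableSet (phase p) := hregm.prod measurableSet_Ico
  obtain ⟨K, hK⟩ := hEx n p hp |s|
  have hWf : {w : List (Fin (n + 3)) | w.length ≤ K}.Finite := List.finite_length_le _ K
  set W := hWf.toFinset with hW
  refine le_trans ?_ (flow_f hFl hO hU hM hp s (q := fun x => φ x (R s η)) (hm _)
    (fun x => h0 x _) (fun z θ => hS.periodic z θ _) W)
  refine lintegral_mono_ae ?_
  filter_upwards [ae_restrict_mem hph, ae_restrict_of_ae (hG n p hp s)] with x hx hxg
  have hxr : x.1 ∈ reg p := by rw [← hrr]; exact hx.1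
  obtain ⟨w, hwl, hw⟩ := hK x.1 hxr (x.1 + s • dir x.2) (by
    rw [add_sub_cancel_left, norm_smul, W780.BB.norm_dir, mul_one, Real.norm_eq_abs])
    hxg.1 hxg.2
  refine ENNReal.ofReal_le_ofReal ?_
  have h1 := pinv_it hR hp hrr hR0 hRa hS w x.1 x.2 s η hxr hw
  have h2 := le_QQ (p := p) s (q := fun x => φ x (R s η)) (fun x => h0 x _) W
    (by rw [hW]; simpa using hwl) (x := x) hw
  rw [h1] at h2
  exact h2

theorem lint_eq {p : Fin (n + 3) → ℂ} (hp : IsConvexPolygon p) {R : ℝ → Z → Z}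
    (hR0 : ∀ η, R 0 η = η) (hRa : ∀ s t η, R (s + t) η = R s (R t η)) {φ : ℂ × ℝ → Z → ℝ}
    (hS : PInv p R φ) (hm : ∀ η, Measurable (fun x => φ x η)) (h0 : ∀ x η, 0 ≤ φ x η)
    (s : ℝ) (η : Z) :
    ∫⁻ x in phase p, ENNReal.ofReal (φ x (R s η)) = ∫⁻ x in phase p, ENNReal.ofReal (φ x η) := by
  refine le_antisymm ?_ (lint_le hp hR0 hRa hS hm h0 s η)
  have h := lint_le hp hR0 hRa hS hm h0 (-s) (R s η)
  rw [← hRa, neg_add_cancel, hR0] at h
  exact h

theorem vol_phase {p : Fin (n + 3) → ℂ} : volume (phase p) < ⊤ := by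
  have h1 : Bornology.IsBounded (region p) :=
    ((isBounded_convexHull.2 (finite_range p).isBounded).subset interior_subset)
  have h2 : Bornology.IsBounded (phase p) := h1.prod (Metric.isBounded_Ico 0 (2 * π))
  exact h2.measure_lt_top

theorem int_eq_re {p : Fin (n + 3) → ℂ} (hp : IsConvexPolygon p) {R : ℝ → Z → Z}
    (hR0 : ∀ η, R 0 η = η) (hRa : ∀ s t η, R (s + t) η = R s (R t η)) {φ : ℂ × ℝ → Z → ℝ}
    (hS : PInv p R φ) (hm : ∀ η, Measurable (fun x => φ x η)) {C : ℝ} (hC : ∀ x η, |φ x η| ≤ C)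
    (s : ℝ) (η : Z) :
    ∫ x in phase p, φ x (R s η) = ∫ x in phase p, φ x η := by
  have : IsFiniteMeasure (volume.restrict (phase p)) := ⟨by
    rw [Measure.restrict_apply_univ]; exact vol_phase⟩
  have hint : ∀ η, Integrable (fun x => φ x η) (volume.restrict (phase p)) := fun η =>
    Integrable.of_bound (hm η).aestronglyMeasurable C (Eventually.of_forall fun x => hC x η)
  obtain ⟨ψ, hψ⟩ : ∃ ψ : ℂ × ℝ → Z → ℝ, ψ = fun x η => φ x η + C := ⟨_, rfl⟩
  have hψi : PInv p R ψ := by
    rw [hψ]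
    refine ⟨fun z θ η => ?_, fun z θ s η h1 h2 => ?_, fun i y hy θ s r η hs hr h1 h2 => ?_⟩
    · rw [hS.periodic]
    · rw [hS.free z θ s η h1 h2]
    · rw [hS.reflect i y hy θ s r η hs hr h1 h2]
  have hψ0 : ∀ x η, 0 ≤ ψ x η := fun x η => by
    rw [hψ]
    have := neg_abs_le (φ x η)
    have := hC x η
    simp only
    linarith
  have hψm : ∀ η, Measurable (fun x => ψ x η) := fun η => by
    rw [hψ]; exact (hm η).add_const C
  have h1 := lint_eq hp hR0 hRa hψi hψm hψ0 s η
  have h2 : ∀ η, ∫ x in phase p, ψ x η = (∫⁻ x in phase p, ENNReal.ofReal (ψ x η)).toReal :=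
    fun η => integral_eq_lintegral_of_nonneg_ae (Eventually.of_forall fun x => hψ0 x η)
      (hψm η).aestronglyMeasurable
  have h3 : ∀ η, ∫ x in phase p, ψ x η = (∫ x in phase p, φ x η) +
      ∫ x in phase p, (C : ℝ) := fun η => by
    rw [hψ]
    exact integral_add (hint η) (integrable_const C)
  have h4 := h2 (R s η)
  rw [h1, ← h2 η, h3, h3] at h4
  exact add_right_cancel h4

/-- Integrals of bounded invariant functions over the phase space are invariant. -/
theorem int_eq {p : Fin (n + 3) → ℂ} (hp : IsConvexPolygon p) {R : ℝ → Z → Z}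
    (hR0 : ∀ η, R 0 η = η) (hRa : ∀ s t η, R (s + t) η = R s (R t η)) {φ : ℂ × ℝ → Z → ℂ}
    (hS : PInv p R φ) (hm : ∀ η, Measurable (fun x => φ x η)) {C : ℝ} (hC : ∀ x η, ‖φ x η‖ ≤ C)
    (s : ℝ) (η : Z) :
    ∫ x in phase p, φ x (R s η) = ∫ x in phase p, φ x η := by
  have : IsFiniteMeasure (volume.restrict (phase p)) := ⟨by
    rw [Measure.restrict_apply_univ]; exact vol_phase⟩
  have hint : ∀ η, Integrable (fun x => φ x η) (volume.restrict (phase p)) := fun η =>
    Integrable.of_bound (hm η).aestronglyMeasurable C (Eventually.of_forall fun x => hC x η)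
  have hcomp : ∀ {γ : Type} (f : ℂ → γ), PInv p R (fun x η => f (φ x η)) := by
    intro γ f
    refine ⟨fun z θ η => ?_, fun z θ s η h1 h2 => ?_, fun i y hy θ s r η hs hr h1 h2 => ?_⟩
    · rw [hS.periodic]
    · rw [hS.free z θ s η h1 h2]
    · rw [hS.reflect i y hy θ s r η hs hr h1 h2]
  have h1 := int_eq_re hp hR0 hRa (hcomp Complex.re) (fun η => Complex.measurable_re.comp (hm η))
    (C := C) (fun x η => (Complex.abs_re_le_norm _).trans (hC x η)) s η
  have h2 := int_eq_re hp hR0 hRa (hcomp Complex.im) (fun η => Complex.measurable_im.comp (hm η))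
    (C := C) (fun x η => (Complex.abs_im_le_norm _).trans (hC x η)) s η
  apply Complex.ext
  · have a1 := integral_re (hint (R s η))
    have a2 := integral_re (hint η)
    simp only [RCLike.re_eq_complex_re] at a1 a2
    rw [← a1, ← a2]
    exact h1
  · have a1 := integral_im (hint (R s η))
    have a2 := integral_im (hint η)
    simp only [RCLike.im_eq_complex_im] at a1 a2
    rw [← a1, ← a2]
    exact h2

end Pool.Agent.Zk91.PF
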