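import Pool.Agent.Zk91.PF.Defs
import Pool.Agent.Zk91.PF.Inv
import Pool.Agent.Zk91.PF.Eig

set_option autoImplicit false

/-!
Eigenfunctions of the product of the billiard and a measure preserving flow vanish if all their
averages against eigenfunctions of the flow vanish.
-/

namespace Pool.Agent.Zk91.PF

open Complex Set MeasureTheory Filter Topology Pool.Agent.W780.PG Pool.Agent.W780.BB
  Pool.Agent.TH578.BE

open scoped Real ComplexConjugate ENNReal

variable {n : ℕ} {p : Fin (n + 3) → ℂ} {Y : Type*} [MeasurableSpace Y] {ν : Measure Y}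
  {S : ℝ → Y → Y}

theorem fin_phase : IsFiniteMeasure (volume.restrict (phase p)) := ⟨by
  rw [Measure.restrict_apply_univ]; exact vol_phase⟩

/-- the average of `F` against `g` -/
noncomputable def av (ν : Measure Y) (F : (ℂ × ℝ) × Y → ℂ) (g : Y → ℂ) (x : ℂ × ℝ) : ℂ :=
  ∫ y, F (x, y) * g y ∂ν

theorem int_comp (hS : IsFlow ν S) {h : Y → ℂ} (hh : Measurable h) (t : ℝ) :
    ∫ y, h y ∂ν = ∫ y, h (S t y) ∂ν := by
  have h3 : AEStronglyMeasurable h (ν.map (S t)) := hh.aestronglyMeasurable
  have h4 := integral_map (μ := ν) (φ := S t) (hS.mp t).measurable.aemeasurable h3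
  rw [(hS.mp t).map_eq] at h4
  exact h4

theorem meas_sec {F : (ℂ × ℝ) × Y → ℂ} (hF : Measurable F) (x : ℂ × ℝ) :
    Measurable (fun y => F (x, y)) := hF.comp measurable_prodMk_left

theorem meas_sec' {F : (ℂ × ℝ) × Y → ℂ} (hF : Measurable F) (y : Y) :
    Measurable (fun x => F (x, y)) := hF.comp measurable_prodMk_right

theorem av_eigen (hS : IsFlow ν S) {F : (ℂ × ℝ) × Y → ℂ} (hF : Measurable F)
    {ω : ℝ} {χ : Fin (n + 3) → ℂ} (hE : IsProdEigenfunction p S ω χ F) {g : Y → ℂ}
    (hg : Measurable g) {ω' : ℝ}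
    (hgS : ∀ t, ∀ᵐ y ∂ν, g (S t y) = exp (((ω' * t : ℝ) : ℂ) * I) * g y) :
    IsEigenfunction p (ω + ω') χ (av ν F g) := by
  refine ⟨fun z θ => ?_, fun z θ s h1 h2 => ?_, fun i x hx θ s r hs hr h1 h2 => ?_⟩
  · unfold av
    simp only [hE.periodic]
  · unfold av
    rw [int_comp hS (h := fun y => F ((z + s • dir θ, θ), y) * g y) ((meas_sec hF _).mul hg) s,
      ← integral_const_mul]
    refine integral_congr_ae ?_
    filter_upwards [hgS s] with y hy
    rw [hy, hE.free z θ s y h1 h2]
    have e : exp ((((ω + ω') * s : ℝ) : ℂ) * I) =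
        exp (((ω * s : ℝ) : ℂ) * I) * exp (((ω' * s : ℝ) : ℂ) * I) := by
      rw [← Complex.exp_add]
      congr 1
      push_cast
      ring
    rw [e]
    ring
  · unfold av
    rw [int_comp hS (h := fun y => F ((x + r • dir (2 * tau p i - θ), 2 * tau p i - θ), y) * g y)
      ((meas_sec hF _).mul hg) (s + r), ← integral_const_mul]
    refine integral_congr_ae ?_
    filter_upwards [hgS (s + r)] with y hy
    rw [hy, hE.reflect i x hx θ s r y hs hr h1 h2]
    have e : exp ((((ω + ω') * (s + r) : ℝ) : ℂ) * I) =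
        exp (((ω * (s + r) : ℝ) : ℂ) * I) * exp (((ω' * (s + r) : ℝ) : ℂ) * I) := by
      rw [← Complex.exp_add]
      congr 1
      push_cast
      ring
    rw [e]
    ring

section fin

variable [IsFiniteMeasure ν]

theorem meas_av {F : (ℂ × ℝ) × Y → ℂ} (hF : Measurable F) {g : Y → ℂ} (hg : Measurable g) :
    Measurable (av ν F g) := by
  have h1 : StronglyMeasurable (fun q : (ℂ × ℝ) × Y => F q * g q.2) :=
    (hF.mul (hg.comp measurable_snd)).stronglyMeasurable
  exact h1.integral_prod_right.measurable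

theorem int_sec' {F : (ℂ × ℝ) × Y → ℂ} (hF : Measurable F) {C : ℝ} (hC : ∀ q, ‖F q‖ ≤ C)
    {g : Y → ℂ} (hg : Measurable g) (hg1 : ∀ y, ‖g y‖ ≤ 1) (x : ℂ × ℝ) :
    Integrable (fun y => F (x, y) * g y) ν := by
  refine Integrable.of_bound ((meas_sec hF x).mul hg).aestronglyMeasurable C
    (Eventually.of_forall fun y => ?_)
  rw [norm_mul]
  calc ‖F (x, y)‖ * ‖g y‖ ≤ C * 1 := by
        have := norm_nonneg (F (x, y))
        exact mul_le_mul (hC _) (hg1 y) (norm_nonneg _) (this.trans (hC _))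
    _ = C := mul_one C

theorem mod_av {F : (ℂ × ℝ) × Y → ℂ} (hF : Measurable F) {C : ℝ} (hC : ∀ q, ‖F q‖ ≤ C)
    {g : Y → ℂ} (hg : Measurable g) (hg1 : ∀ y, ‖g y‖ ≤ 1) (h : ℝ) :
    modulus p (av ν F g) h ≤ prodModulus p ν F h := by
  unfold modulus prodModulus
  have h1 : ∀ x : ℂ × ℝ, ENNReal.ofReal ‖av ν F g (x.1, x.2 + h) - av ν F g x‖ ≤
      ∫⁻ y, ENNReal.ofReal ‖F ((x.1, x.2 + h), y) - F (x, y)‖ ∂ν := by
    intro x
    unfold av
    rw [← integral_sub (int_sec' hF hC hg hg1 _) (int_sec' hF hC hg hg1 _), ofReal_norm]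
    refine (enorm_integral_le_lintegral_enorm _).trans ?_
    refine lintegral_mono fun y => ?_
    simp only
    rw [← sub_mul, enorm_mul, ofReal_norm]
    have h2 : ‖g y‖ₑ ≤ 1 := by
      rw [← ofReal_norm, ← ENNReal.ofReal_one]
      exact ENNReal.ofReal_le_ofReal (hg1 y)
    calc ‖F ((x.1, x.2 + h), y) - F (x, y)‖ₑ * ‖g y‖ₑ
        ≤ ‖F ((x.1, x.2 + h), y) - F (x, y)‖ₑ * 1 := by gcongr
      _ = _ := mul_one _
  refine (lintegral_mono h1).trans (le_of_eq ?_)
  have : IsFiniteMeasure (volume.restrict (phase p)) := fin_phase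
  unfold modulus
  rw [lintegral_lintegral_swap]
  refine Measurable.aemeasurable ?_
  have e1 : Measurable (fun q : (ℂ × ℝ) × Y => F ((q.1.1, q.1.2 + h), q.2)) := by
    refine hF.comp ?_
    exact ((measurable_fst.comp measurable_fst).prodMk
      ((measurable_snd.comp measurable_fst).add_const h)).prodMk measurable_snd
  exact (e1.sub hF).norm.ennreal_ofReal

/-- the kernel -/
noncomputable def ker (p : Fin (n + 3) → ℂ) (F : (ℂ × ℝ) × Y → ℂ) (q : Y × Y) : ℂ :=
  ∫ x in phase p, F (x, q.1) * conj (F (x, q.2))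

omit [MeasurableSpace Y] in
theorem ker_herm (F : (ℂ × ℝ) × Y → ℂ) (y y' : Y) : ker p F (y', y) = conj (ker p F (y, y')) := by
  unfold ker
  rw [← integral_conj]
  refine integral_congr_ae (Eventually.of_forall fun x => ?_)
  simp only [map_mul, Complex.conj_conj]
  ring

theorem meas_ker {F : (ℂ × ℝ) × Y → ℂ} (hF : Measurable F) : Measurable (ker p F) := by
  have : IsFiniteMeasure (volume.restrict (phase p)) := fin_phase
  have h1 : StronglyMeasurable (fun r : (Y × Y) × (ℂ × ℝ) =>
      F (r.2, r.1.1) * conj (F (r.2, r.1.2))) := by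
    refine Measurable.stronglyMeasurable ?_
    refine (hF.comp (measurable_snd.prodMk (measurable_fst.comp measurable_fst))).mul ?_
    exact RCLike.continuous_conj.measurable.comp
      (hF.comp (measurable_snd.prodMk (measurable_snd.comp measurable_fst)))
  exact (h1.integral_prod_right (ν := volume.restrict (phase p))).measurable

omit [MeasurableSpace Y] in
theorem ker_le {F : (ℂ × ℝ) × Y → ℂ} {C : ℝ} (hC : ∀ q, ‖F q‖ ≤ C) (q : Y × Y) :
    ‖ker p F q‖ ≤ C * C * (volume (phase p)).toReal := by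
  unfold ker
  have h1 := norm_setIntegral_le_of_norm_le_const (μ := volume) (s := phase p)
    (f := fun x => F (x, q.1) * conj (F (x, q.2))) (C := C * C) vol_phase (fun x _ => by
      rw [norm_mul, RCLike.norm_conj]
      have h2 := hC (x, q.1)
      have h3 := hC (x, q.2)
      exact mul_le_mul h2 h3 (norm_nonneg _) ((norm_nonneg _).trans h2))
  exact h1

theorem ker_inv (hp : IsConvexPolygon p) (hS : IsFlow ν S) {F : (ℂ × ℝ) × Y → ℂ}
    (hF : Measurable F) {C : ℝ} (hC : ∀ q, ‖F q‖ ≤ C) {ω : ℝ} {χ : Fin (n + 3) → ℂ}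
    (hχ : ∀ i, ‖χ i‖ = 1) (hE : IsProdEigenfunction p S ω χ F) (t : ℝ) (y y' : Y) :
    ker p F (S t y, S t y') = ker p F (y, y') := by
  have hc1 : ∀ c u v : ℂ, ‖c‖ = 1 → (c * u) * conj (c * v) = u * conj v := by
    intro c u v hc
    have h1 : c * conj c = 1 := by
      rw [Complex.mul_conj, Complex.normSq_eq_norm_sq, hc]
      norm_num
    rw [map_mul]
    calc c * u * (conj c * conj v) = (c * conj c) * (u * conj v) := by ring
      _ = _ := by rw [h1, one_mul]
  have h := int_eq hp (Z := Y × Y) (R := fun s q => (S s q.1, S s q.2))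
    (fun q => by simp only [hS.zero]) (fun s t q => by simp only [hS.add])
    (φ := fun x q => F (x, q.1) * conj (F (x, q.2))) ⟨?_, ?_, ?_⟩ ?_ (C := C * C) ?_ t (y, y')
  · exact h
  · intro z θ q
    simp only [hE.periodic]
  · intro z θ s q h1 h2
    simp only [hE.free z θ s _ h1 h2]
    exact hc1 _ _ _ (W780.BB.norm_dir (ω * s))
  · intro i x hx θ s r q hs hr h1 h2
    simp only [hE.reflect i x hx θ s r _ hs hr h1 h2]
    refine hc1 _ _ _ ?_
    rw [norm_mul, hχ i, one_mul]
    exact W780.BB.norm_dir (ω * (s + r))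
  · intro q
    exact (meas_sec' hF q.1).mul (RCLike.continuous_conj.measurable.comp (meas_sec' hF q.2))
  · intro x q
    rw [norm_mul, RCLike.norm_conj]
    have h2 := hC (x, q.1)
    have h3 := hC (x, q.2)
    exact mul_le_mul h2 h3 (norm_nonneg _) ((norm_nonneg _).trans h2)

theorem ker_av {F : (ℂ × ℝ) × Y → ℂ} (hF : Measurable F) {C : ℝ} (hC : ∀ q, ‖F q‖ ≤ C)
    {g : Y → ℂ} (hg : Measurable g) (hg1 : ∀ y, ‖g y‖ ≤ 1) (y : Y) :
    ∫ y', ker p F (y, y') * g y' ∂ν =
      ∫ x in phase p, F (x, y) * conj (av ν F (fun y' => conj (g y')) x) := by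
  have : IsFiniteMeasure (volume.restrict (phase p)) := fin_phase
  have h1 : ∀ y', ker p F (y, y') * g y' =
      ∫ x in phase p, F (x, y) * conj (F (x, y')) * g y' := fun y' => by
    unfold ker
    rw [integral_mul_const]
  simp only [h1]
  rw [integral_integral_swap]
  · refine integral_congr_ae (Eventually.of_forall fun x => ?_)
    simp only
    unfold av
    rw [← integral_conj, ← integral_const_mul]
    refine integral_congr_ae (Eventually.of_forall fun y' => ?_)
    simp only [map_mul, Complex.conj_conj]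
    ring
  · refine Integrable.of_bound (C := C * C * 1) ?_ (Eventually.of_forall fun q => ?_)
    · refine Measurable.aestronglyMeasurable ?_
      refine ((hF.comp (measurable_snd.prodMk measurable_const)).mul
        (RCLike.continuous_conj.measurable.comp
          (hF.comp (measurable_snd.prodMk measurable_fst)))).mul (hg.comp measurable_fst)
    · simp only [Function.uncurry]
      rw [norm_mul, norm_mul, RCLike.norm_conj]
      have h2 := hC (q.2, y)
      have h3 := hC (q.2, q.1)
      have hC0 : 0 ≤ C := (norm_nonneg _).trans h2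
      exact mul_le_mul (mul_le_mul h2 h3 (norm_nonneg _) hC0) (hg1 _) (norm_nonneg _)
        (mul_nonneg hC0 hC0)

theorem quad_av {F : (ℂ × ℝ) × Y → ℂ} (hF : Measurable F) {C : ℝ} (hC : ∀ q, ‖F q‖ ≤ C)
    {g : Y → ℂ} (hg : Measurable g) (hg1 : ∀ y, ‖g y‖ ≤ 1) {a : ℂ × ℝ → ℂ} (ha : Measurable a)
    {A : ℝ} (hA : ∀ x, ‖a x‖ ≤ A) :
    ∫ y, (∫ x in phase p, F (x, y) * conj (a x)) * g y ∂ν =
      ∫ x in phase p, av ν F g x * conj (a x) := by
  have : IsFiniteMeasure (volume.restrict (phase p)) := fin_phase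
  have h1 : ∀ y, (∫ x in phase p, F (x, y) * conj (a x)) * g y =
      ∫ x in phase p, F (x, y) * conj (a x) * g y := fun y => by
    rw [integral_mul_const]
  simp only [h1]
  rw [integral_integral_swap]
  · refine integral_congr_ae (Eventually.of_forall fun x => ?_)
    simp only
    unfold av
    rw [← integral_mul_const]
    refine integral_congr_ae (Eventually.of_forall fun y' => ?_)
    simp only
    ring
  · refine Integrable.of_bound (C := C * A * 1) ?_ (Eventually.of_forall fun q => ?_)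
    · refine Measurable.aestronglyMeasurable ?_
      refine ((hF.comp (measurable_snd.prodMk measurable_fst)).mul
        (RCLike.continuous_conj.measurable.comp (ha.comp measurable_snd))).mul
          (hg.comp measurable_fst)
    · simp only [Function.uncurry]
      rw [norm_mul, norm_mul, RCLike.norm_conj]
      have h2 := hC (q.2, q.1)
      have h3 := hA q.2
      have hC0 : 0 ≤ C := (norm_nonneg _).trans h2
      have hA0 : 0 ≤ A := (norm_nonneg _).trans h3
      exact mul_le_mul (mul_le_mul h2 h3 (norm_nonneg _) hC0) (hg1 _) (norm_nonneg _)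
        (mul_nonneg hC0 hA0)

theorem av_le {F : (ℂ × ℝ) × Y → ℂ} {C : ℝ} (hC : ∀ q, ‖F q‖ ≤ C)
    {g : Y → ℂ} (hg1 : ∀ y, ‖g y‖ ≤ 1) (x : ℂ × ℝ) :
    ‖av ν F g x‖ ≤ C * ν.real univ := by
  unfold av
  refine norm_integral_le_of_norm_le_const (Eventually.of_forall fun y => ?_)
  rw [norm_mul]
  have := norm_nonneg (F (x, y))
  calc ‖F (x, y)‖ * ‖g y‖ ≤ C * 1 := mul_le_mul (hC _) (hg1 y) (norm_nonneg _) (this.trans (hC _))
    _ = C := mul_one C

/-- If the kernel operator kills `g` then the average against the conjugate of `g` vanishes. -/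
theorem av_zero {F : (ℂ × ℝ) × Y → ℂ} (hF : Measurable F) {C : ℝ} (hC : ∀ q, ‖F q‖ ≤ C)
    {g : Y → ℂ} (hg : Measurable g) (hg1 : ∀ y, ‖g y‖ ≤ 1)
    (h0 : ∀ᵐ y ∂ν, ∫ y', ker p F (y, y') * conj (g y') ∂ν = 0) :
    ∀ᵐ x ∂(volume.restrict (phase p)), av ν F g x = 0 := by
  have : IsFiniteMeasure (volume.restrict (phase p)) := fin_phase
  have hgc : Measurable (fun y => conj (g y)) := RCLike.continuous_conj.measurable.comp hg
  have hgc1 : ∀ y, ‖conj (g y)‖ ≤ 1 := fun y => by rw [RCLike.norm_conj]; exact hg1 y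
  have h1 : ∀ᵐ y ∂ν, ∫ x in phase p, F (x, y) * conj (av ν F g x) = 0 := by
    filter_upwards [h0] with y hy
    rw [ker_av hF hC hgc hgc1 y] at hy
    simp only [Complex.conj_conj] at hy
    exact hy
  have h2 := quad_av (p := p) (ν := ν) hF hC hg hg1 (meas_av (ν := ν) hF hg) (av_le hC hg1)
  have h3 : ∫ y, (∫ x in phase p, F (x, y) * conj (av ν F g x)) * g y ∂ν = 0 := by
    rw [integral_eq_zero_of_ae]
    filter_upwards [h1] with y hy
    rw [hy, zero_mul]
    rfl
  rw [h3] at h2
  have h4 : ∀ x, av ν F g x * conj (av ν F g x) = ((‖av ν F g x‖ ^ 2 : ℝ) : ℂ) := fun x => by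
    rw [Complex.mul_conj, Complex.normSq_eq_norm_sq]
  simp only [h4] at h2
  have h4' : ∫ x in phase p, ((‖av ν F g x‖ ^ 2 : ℝ) : ℂ) =
      ((∫ x in phase p, ‖av ν F g x‖ ^ 2 : ℝ) : ℂ) :=
    integral_ofReal (𝕜 := ℂ) (f := fun x => ‖av ν F g x‖ ^ 2)
  rw [h4'] at h2
  have h5 : ∫ x in phase p, ‖av ν F g x‖ ^ 2 = 0 := Complex.ofReal_eq_zero.1 h2.symm
  have hmv := meas_av (ν := ν) hF hg
  have h6 : Integrable (fun x => ‖av ν F g x‖ ^ 2) (volume.restrict (phase p)) := by
    refine Integrable.of_bound (C := (C * ν.real univ) ^ 2) ?_ (Eventually.of_forall fun x => ?_)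
    · exact (hmv.norm.pow_const 2).aestronglyMeasurable
    · rw [Real.norm_eq_abs, abs_of_nonneg (by positivity)]
      exact pow_le_pow_left₀ (norm_nonneg _) (av_le hC hg1 x) 2
  rw [integral_eq_zero_iff_of_nonneg (fun x => by positivity) h6] at h5
  filter_upwards [h5] with x hx
  have h7 : ‖av ν F g x‖ ^ 2 = 0 := hx
  exact norm_eq_zero.1 (by simpa using h7)

/-- A bounded function all of whose averages vanish is zero. -/
theorem zero_of_av {F : (ℂ × ℝ) × Y → ℂ} (hF : Measurable F) {C : ℝ} (hC : ∀ q, ‖F q‖ ≤ C)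
    (h0 : ∀ g : Y → ℂ, Measurable g → (∀ y, ‖g y‖ ≤ 1) →
      ∀ᵐ x ∂(volume.restrict (phase p)), av ν F g x = 0) :
    ∀ᵐ q ∂((volume.restrict (phase p)).prod ν), F q = 0 := by
  have : IsFiniteMeasure (volume.restrict (phase p)) := fin_phase
  obtain ⟨μ, hμ⟩ : ∃ μ, μ = (volume.restrict (phase p)).prod ν := ⟨_, rfl⟩
  have : IsFiniteMeasure μ := by rw [hμ]; infer_instance
  have hint : Integrable F μ :=
    Integrable.of_bound hF.aestronglyMeasurable C (Eventually.of_forall hC)
  have hrect : ∀ A : Set (ℂ × ℝ), MeasurableSet A → ∀ B : Set Y, MeasurableSet B →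
      ∫ q in A ×ˢ B, F q ∂μ = 0 := by
    intro A hA B hB
    rw [hμ, setIntegral_prod]
    · have h1 := h0 (B.indicator fun _ => 1) (measurable_const.indicator hB) (fun y => by
        by_cases hy : y ∈ B
        · rw [indicator_of_mem hy]; simp
        · rw [indicator_of_notMem hy]; simp)
      rw [integral_eq_zero_of_ae]
      filter_upwards [ae_restrict_of_ae h1] with x hx
      rw [← integral_indicator hB]
      have h2 : ∫ y, B.indicator (fun y => F (x, y)) y ∂ν = av ν F (B.indicator fun _ => 1) x := by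
        unfold av
        refine integral_congr_ae (Eventually.of_forall fun y => ?_)
        simp only
        by_cases hy : y ∈ B
        · rw [indicator_of_mem hy, indicator_of_mem hy, mul_one]
        · rw [indicator_of_notMem hy, indicator_of_notMem hy, mul_zero]
      rw [h2, hx]
      rfl
    · rw [← hμ]
      exact hint.integrableOn
  have hall : ∀ E : Set ((ℂ × ℝ) × Y), MeasurableSet E → ∫ q in E, F q ∂μ = 0 := by
    intro E hE
    refine MeasurableSpace.induction_on_inter (C := fun s _ => ∫ q in s, F q ∂μ = 0)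
      generateFrom_prod.symm isPiSystem_prod ?_ ?_ ?_ ?_ E hE
    · exact setIntegral_empty
    · rintro t ⟨A, hA, B, hB, rfl⟩
      exact hrect A hA B hB
    · intro t ht h
      have h1 := integral_add_compl ht hint
      have h2 := hrect univ .univ univ .univ
      rw [univ_prod_univ, setIntegral_univ] at h2
      rw [h, h2, zero_add] at h1
      exact h1
    · intro f hd hf h
      rw [integral_iUnion hf hd hint.integrableOn]
      simp only [h, tsum_zero]
  have h1 := hint.ae_eq_zero_of_forall_setIntegral_eq_zero (fun s hs _ => hall s hs)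
  rw [hμ] at h1
  filter_upwards [h1] with q hq
  exact hq

/-- The main step. -/
theorem core_zero (hp : IsConvexPolygon p) (hS : IsFlow ν S) {F : (ℂ × ℝ) × Y → ℂ}
    (hF : Measurable F) {C : ℝ} (hC : ∀ q, ‖F q‖ ≤ C) {ω : ℝ} {χ : Fin (n + 3) → ℂ}
    (hχ : ∀ i, ‖χ i‖ = 1) (hE : IsProdEigenfunction p S ω χ F)
    (hz : ∀ (ω' : ℝ) (g : Y → ℂ), Measurable g → (∀ y, ‖g y‖ ≤ 1) →
      (∀ t, ∀ᵐ y ∂ν, g (S t y) = exp (((ω' * t : ℝ) : ℂ) * I) * g y) →
      ∀ᵐ x ∂(volume.restrict (phase p)), av ν F g x = 0) :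
    ∀ᵐ q ∂((volume.restrict (phase p)).prod ν), F q = 0 := by
  have : IsFiniteMeasure (volume.restrict (phase p)) := fin_phase
  have hkm := meas_ker (p := p) hF
  have hkb := ker_le (p := p) hC
  obtain ⟨T, hT, -⟩ := exists_op (ν := ν) hkm hkb
  have hT0 : T = 0 := by
    by_contra hne
    obtain ⟨ω', g, μ, hg, hg1, hμ, hgS, hgk, hgn⟩ := exists_eig hT hne hkm hkb
      (fun y y' => ker_herm F y y') hS.meas hS.mp hS.add (ker_inv hp hS hF hC hχ hE)
    apply hgn
    have hgc : Measurable (fun y => conj (g y)) := RCLike.continuous_conj.measurable.comp hg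
    have h1 := hz (-ω') (fun y => conj (g y)) hgc
      (fun y => by rw [RCLike.norm_conj]; exact hg1 y) (fun t => by
        filter_upwards [hgS t] with y hy
        rw [hy, map_mul, ← Complex.exp_conj, map_mul, Complex.conj_I, Complex.conj_ofReal]
        congr 2
        push_cast
        ring)
    filter_upwards [hgk] with y hy
    rw [ker_av hF hC hg hg1 y] at hy
    rw [integral_eq_zero_of_ae] at hy
    · exact (mul_eq_zero.1 hy.symm).resolve_left hμ
    · filter_upwards [h1] with x hx
      rw [hx, map_zero, mul_zero]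
      rfl
  refine zero_of_av hF hC fun g hg hg1 => av_zero hF hC hg hg1 ?_
  have hgc : Measurable (fun y => conj (g y)) := RCLike.continuous_conj.measurable.comp hg
  have hmem : MemLp (fun y => conj (g y)) 2 ν :=
    MemLp.of_bound hgc.aestronglyMeasurable 1 (Eventually.of_forall fun y => by
      rw [RCLike.norm_conj]; exact hg1 y)
  have h1 := hT hmem.toLp
  rw [hT0, zero_apply] at h1
  filter_upwards [h1, Lp.coeFn_zero ℂ 2 ν] with y hy hy2
  rw [hy2] at hy
  have h2 : ∫ y', ker p F (y, y') * conj (g y') ∂ν =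
      ∫ y', ker p F (y, y') * (hmem.toLp (fun y => conj (g y)) : Y → ℂ) y' ∂ν := by
    refine integral_congr_ae ?_
    filter_upwards [hmem.coeFn_toLp] with y' hy'
    rw [hy']
  rw [h2, ← hy]
  rfl

end fin

end Pool.Agent.Zk91.PF
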