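import Pool.Agent.TH578.BE.Log

set_option autoImplicit false

/-!
The product of the billiard in a convex polygon and a measure preserving flow: definitions.
-/

namespace Pool.Agent.Zk91.PF

open Complex Set MeasureTheory Pool.Agent.W780.PG Pool.Agent.W780.BB Pool.Agent.TH578.BE

open scoped Real

/-- `S` is a measurable flow on `Y` which preserves the measure `ν`. -/
structure IsFlow {Y : Type*} [MeasurableSpace Y] (ν : Measure Y) (S : ℝ → Y → Y) : Prop where
  zero : ∀ y, S 0 y = y
  add : ∀ s t y, S (s + t) y = S s (S t y)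
  meas : Measurable (fun q : ℝ × Y => S q.1 q.2)
  mp : ∀ t, MeasurePreserving (S t) ν ν

/-- `F` is an eigenfunction, with frequency `ω` and weight `χ i` for each reflection in side `i`, of
the product of the billiard in the region of `p` and the flow `S` on `Y`: `F ((z, θ), y)` does not
change if `2 π` is added to `θ` (`periodic`); it is multiplied by `exp (i ω s)` if the state
`(z, θ)` moves freely for the time `s` inside the region and `y` moves to `S s y` (`free`); it is
multiplied by `χ i * exp (i ω (s + r))` if a free motion for the time `s` ends in an inner point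
`x` of side `i`, where the point is reflected, and is followed by a free motion for the time `r`,
and `y` moves to `S (s + r) y` (`reflect`). -/
structure IsProdEigenfunction {n : ℕ} (p : Fin (n + 3) → ℂ) {Y : Type*} (S : ℝ → Y → Y) (ω : ℝ)
    (χ : Fin (n + 3) → ℂ) (F : (ℂ × ℝ) × Y → ℂ) : Prop where
  periodic : ∀ (z : ℂ) (θ : ℝ) (y : Y), F ((z, θ + 2 * π), y) = F ((z, θ), y)
  free : ∀ (z : ℂ) (θ s : ℝ) (y : Y), z ∈ region p → z + s • dir θ ∈ region p →
    F ((z + s • dir θ, θ), S s y) = exp (((ω * s : ℝ) : ℂ) * I) * F ((z, θ), y)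
  reflect : ∀ i, ∀ x ∈ openSegment ℝ (p i) (p (i + 1)), ∀ (θ s r : ℝ) (y : Y), 0 < s → 0 < r →
    x - s • dir θ ∈ region p → x + r • dir (2 * tau p i - θ) ∈ region p →
    F ((x + r • dir (2 * tau p i - θ), 2 * tau p i - θ), S (s + r) y) =
      χ i * exp (((ω * (s + r) : ℝ) : ℂ) * I) * F ((x - s • dir θ, θ), y)

/-- The set `A` is invariant under the product of the billiard in the region of `p` and the flow
`S` on `Y`. -/
structure IsProdInvariant {n : ℕ} (p : Fin (n + 3) → ℂ) {Y : Type*} (S : ℝ → Y → Y)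
    (A : Set ((ℂ × ℝ) × Y)) : Prop where
  periodic : ∀ (z : ℂ) (θ : ℝ) (y : Y), ((z, θ + 2 * π), y) ∈ A ↔ ((z, θ), y) ∈ A
  free : ∀ (z : ℂ) (θ s : ℝ) (y : Y), z ∈ region p → z + s • dir θ ∈ region p →
    (((z + s • dir θ, θ), S s y) ∈ A ↔ ((z, θ), y) ∈ A)
  reflect : ∀ i, ∀ x ∈ openSegment ℝ (p i) (p (i + 1)), ∀ (θ s r : ℝ) (y : Y), 0 < s → 0 < r →
    x - s • dir θ ∈ region p → x + r • dir (2 * tau p i - θ) ∈ region p →
    (((x + r • dir (2 * tau p i - θ), 2 * tau p i - θ), S (s + r) y) ∈ A ↔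
      ((x - s • dir θ, θ), y) ∈ A)

/-- The mean over `y` of the change of `F (·, y)` when all directions are turned by `h`. -/
noncomputable def prodModulus {n : ℕ} (p : Fin (n + 3) → ℂ) {Y : Type*} [MeasurableSpace Y]
    (ν : Measure Y) (F : (ℂ × ℝ) × Y → ℂ) (h : ℝ) : ENNReal :=
  ∫⁻ y, modulus p (fun x => F (x, y)) h ∂ν

end Pool.Agent.Zk91.PF
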