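import Mathlib

set_option autoImplicit false

/-!
Integral operators with bounded measurable kernels on a finite measure space: existence,
norm, compactness, symmetry.
-/

namespace Pool.Agent.Zk91.PF

open MeasureTheory Set Filter Topology
open scoped ENNReal NNReal

variable {Y : Type*} [MeasurableSpace Y]

/-- `T` is the integral operator with kernel `k`. -/
def Rep (ν : Measure Y) (T : Lp ℂ 2 ν →L[ℂ] Lp ℂ 2 ν) (k : Y × Y → ℂ) : Prop :=
  ∀ g : Lp ℂ 2 ν, T g =ᵐ[ν] fun y => ∫ y', k (y, y') * g y' ∂ν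

/-- The integral of the square of the kernel. -/
noncomputable def nk (ν : Measure Y) (k : Y × Y → ℂ) : ℝ≥0∞ :=
  ∫⁻ p, ‖k p‖ₑ ^ (2 : ℝ) ∂(ν.prod ν)

variable {ν : Measure Y} [IsFiniteMeasure ν]

theorem int_sec {k : Y × Y → ℂ} (hk : Measurable k) {C : ℝ} (hC : ∀ p, ‖k p‖ ≤ C)
    (g : Lp ℂ 2 ν) (y : Y) : Integrable (fun y' => k (y, y') * g y') ν := by
  have hg : Integrable (g : Y → ℂ) ν := (Lp.memLp g).integrable (by norm_num)
  refine Integrable.bdd_mul hg (c := C) ?_ ?_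
  · exact (hk.comp measurable_prodMk_left).aestronglyMeasurable
  · filter_upwards with y'
    exact hC _

theorem meas_opf {k : Y × Y → ℂ} (hk : Measurable k) (g : Lp ℂ 2 ν) :
    StronglyMeasurable (fun y => ∫ y', k (y, y') * g y' ∂ν) := by
  have h1 : StronglyMeasurable (fun p : Y × Y => k p * g p.2) :=
    hk.stronglyMeasurable.mul ((Lp.stronglyMeasurable g).comp_measurable measurable_snd)
  exact h1.integral_prod_right

theorem sq_opf {k : Y × Y → ℂ} (hk : Measurable k) (g : Lp ℂ 2 ν) (y : Y) :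
    ‖∫ y', k (y, y') * g y' ∂ν‖ₑ ^ (2 : ℝ) ≤
      (∫⁻ y', ‖k (y, y')‖ₑ ^ (2 : ℝ) ∂ν) * (∫⁻ y', ‖g y'‖ₑ ^ (2 : ℝ) ∂ν) := by
  have h1 : ‖∫ y', k (y, y') * g y' ∂ν‖ₑ ≤ ∫⁻ y', ‖k (y, y')‖ₑ * ‖g y'‖ₑ ∂ν := by
    refine (enorm_integral_le_lintegral_enorm _).trans (le_of_eq ?_)
    refine lintegral_congr fun y' => ?_
    rw [enorm_mul]
  have h2 := ENNReal.lintegral_mul_le_Lp_mul_Lq ν Real.HolderConjugate.two_two
    (f := fun y' => ‖k (y, y')‖ₑ) (g := fun y' => ‖g y'‖ₑ)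
    ((hk.comp measurable_prodMk_left).enorm.aemeasurable)
    ((Lp.stronglyMeasurable g).measurable.enorm.aemeasurable)
  have h3 : ‖∫ y', k (y, y') * g y' ∂ν‖ₑ ≤ (∫⁻ y', ‖k (y, y')‖ₑ ^ (2 : ℝ) ∂ν) ^ (1 / 2 : ℝ) *
      (∫⁻ y', ‖g y'‖ₑ ^ (2 : ℝ) ∂ν) ^ (1 / 2 : ℝ) := h1.trans h2
  calc ‖∫ y', k (y, y') * g y' ∂ν‖ₑ ^ (2 : ℝ)
      ≤ ((∫⁻ y', ‖k (y, y')‖ₑ ^ (2 : ℝ) ∂ν) ^ (1 / 2 : ℝ) *
        (∫⁻ y', ‖g y'‖ₑ ^ (2 : ℝ) ∂ν) ^ (1 / 2 : ℝ)) ^ (2 : ℝ) :=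
        ENNReal.rpow_le_rpow h3 (by norm_num)
    _ = _ := by
        rw [ENNReal.mul_rpow_of_nonneg _ _ (by norm_num), ← ENNReal.rpow_mul, ← ENNReal.rpow_mul]
        norm_num

theorem norm_opf {k : Y × Y → ℂ} (hk : Measurable k) (g : Lp ℂ 2 ν) :
    eLpNorm (fun y => ∫ y', k (y, y') * g y' ∂ν) 2 ν ≤
      (nk ν k) ^ (1 / 2 : ℝ) * eLpNorm g 2 ν := by
  rw [eLpNorm_eq_lintegral_rpow_enorm_toReal (by norm_num) (by norm_num),
    eLpNorm_eq_lintegral_rpow_enorm_toReal (by norm_num) (by norm_num)]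
  simp only [ENNReal.toReal_ofNat]
  rw [← ENNReal.mul_rpow_of_nonneg _ _ (by norm_num)]
  refine ENNReal.rpow_le_rpow ?_ (by norm_num)
  calc ∫⁻ y, ‖∫ y', k (y, y') * g y' ∂ν‖ₑ ^ (2 : ℝ) ∂ν
      ≤ ∫⁻ y, (∫⁻ y', ‖k (y, y')‖ₑ ^ (2 : ℝ) ∂ν) * (∫⁻ y', ‖g y'‖ₑ ^ (2 : ℝ) ∂ν) ∂ν :=
        lintegral_mono fun y => sq_opf hk g y
    _ = (∫⁻ y, (∫⁻ y', ‖k (y, y')‖ₑ ^ (2 : ℝ) ∂ν) ∂ν) * (∫⁻ y', ‖g y'‖ₑ ^ (2 : ℝ) ∂ν) := by
        rw [lintegral_mul_const]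
        exact Measurable.lintegral_prod_right' (f := fun p : Y × Y => ‖k p‖ₑ ^ (2 : ℝ))
          (hk.enorm.pow_const _)
    _ = nk ν k * ∫⁻ y', ‖g y'‖ₑ ^ (2 : ℝ) ∂ν := by
        rw [nk, lintegral_prod]
        exact (hk.enorm.pow_const _).aemeasurable

theorem nk_lt_top {k : Y × Y → ℂ} {C : ℝ} (hC : ∀ p, ‖k p‖ ≤ C) :
    nk ν k < ∞ := by
  have h1 : nk ν k ≤ ∫⁻ _ : Y × Y, (ENNReal.ofReal C) ^ (2 : ℝ) ∂(ν.prod ν) := by
    refine lintegral_mono fun p => ENNReal.rpow_le_rpow ?_ (by norm_num)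
    rw [← ofReal_norm]
    exact ENNReal.ofReal_le_ofReal (hC p)
  refine h1.trans_lt ?_
  rw [lintegral_const]
  refine ENNReal.mul_lt_top ?_ (measure_lt_top _ _)
  exact ENNReal.rpow_lt_top_of_nonneg (by norm_num) ENNReal.ofReal_ne_top

theorem exists_op {k : Y × Y → ℂ} (hk : Measurable k) {C : ℝ} (hC : ∀ p, ‖k p‖ ≤ C) :
    ∃ T : Lp ℂ 2 ν →L[ℂ] Lp ℂ 2 ν, Rep ν T k ∧ ‖T‖ ≤ ((nk ν k) ^ (1 / 2 : ℝ)).toReal := by
  have hfin : (nk ν k) ^ (1 / 2 : ℝ) < ∞ :=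
    ENNReal.rpow_lt_top_of_nonneg (by norm_num) (nk_lt_top hC).ne
  have hmem : ∀ g : Lp ℂ 2 ν, MemLp (fun y => ∫ y', k (y, y') * g y' ∂ν) 2 ν := fun g =>
    ⟨(meas_opf hk g).aestronglyMeasurable,
      (norm_opf hk g).trans_lt (ENNReal.mul_lt_top hfin (Lp.memLp g).2)⟩
  let L : Lp ℂ 2 ν →ₗ[ℂ] Lp ℂ 2 ν :=
    { toFun := fun g => (hmem g).toLp
      map_add' := by
        intro g h
        rw [← MemLp.toLp_add]
        apply MemLp.toLp_congr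
        filter_upwards with y
        simp only [Pi.add_apply]
        rw [← integral_add (int_sec hk hC g y) (int_sec hk hC h y)]
        refine integral_congr_ae ?_
        filter_upwards [Lp.coeFn_add g h] with y' hy'
        rw [hy', Pi.add_apply, mul_add]
      map_smul' := by
        intro c g
        rw [RingHom.id_apply, ← MemLp.toLp_const_smul]
        apply MemLp.toLp_congr
        filter_upwards with y
        simp only [Pi.smul_apply]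
        rw [← integral_smul]
        refine integral_congr_ae ?_
        filter_upwards [Lp.coeFn_smul c g] with y' hy'
        rw [hy', Pi.smul_apply]
        simp only [smul_eq_mul]
        ring }
  refine ⟨L.mkContinuous ((nk ν k) ^ (1 / 2 : ℝ)).toReal ?_, ?_, ?_⟩
  · intro g
    change ‖(hmem g).toLp‖ ≤ _
    rw [Lp.norm_toLp, Lp.norm_def, ← ENNReal.toReal_mul]
    refine ENNReal.toReal_mono ?_ (norm_opf hk g)
    exact (ENNReal.mul_lt_top hfin (Lp.memLp g).2).ne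
  · intro g
    exact (hmem g).coeFn_toLp
  · exact LinearMap.mkContinuous_norm_le _ ENNReal.toReal_nonneg _

theorem Rep.unique {T T' : Lp ℂ 2 ν →L[ℂ] Lp ℂ 2 ν} {k : Y × Y → ℂ} (h : Rep ν T k)
    (h' : Rep ν T' k) : T = T' := by
  ext1 g
  exact Lp.ext ((h g).trans (h' g).symm)

theorem Rep.sub {T T' : Lp ℂ 2 ν →L[ℂ] Lp ℂ 2 ν} {k k' : Y × Y → ℂ} (h : Rep ν T k)
    (h' : Rep ν T' k') (hk : Measurable k) {C : ℝ} (hC : ∀ p, ‖k p‖ ≤ C)
    (hk' : Measurable k') {C' : ℝ} (hC' : ∀ p, ‖k' p‖ ≤ C') :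
    Rep ν (T - T') (fun p => k p - k' p) := by
  intro g
  rw [sub_apply]
  filter_upwards [Lp.coeFn_sub (T g) (T' g), h g, h' g] with y h1 h2 h3
  rw [h1, Pi.sub_apply, h2, h3, ← integral_sub (int_sec hk hC g y) (int_sec hk' hC' g y)]
  refine integral_congr_ae ?_
  filter_upwards with y'
  ring

theorem Rep.add {T T' : Lp ℂ 2 ν →L[ℂ] Lp ℂ 2 ν} {k k' : Y × Y → ℂ} (h : Rep ν T k)
    (h' : Rep ν T' k') (hk : Measurable k) {C : ℝ} (hC : ∀ p, ‖k p‖ ≤ C)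
    (hk' : Measurable k') {C' : ℝ} (hC' : ∀ p, ‖k' p‖ ≤ C') :
    Rep ν (T + T') (fun p => k p + k' p) := by
  intro g
  rw [add_apply]
  filter_upwards [Lp.coeFn_add (T g) (T' g), h g, h' g] with y h1 h2 h3
  rw [h1, Pi.add_apply, h2, h3, ← integral_add (int_sec hk hC g y) (int_sec hk' hC' g y)]
  refine integral_congr_ae ?_
  filter_upwards with y'
  ring

theorem Rep.norm_diff {T T' : Lp ℂ 2 ν →L[ℂ] Lp ℂ 2 ν} {k k' : Y × Y → ℂ} (h : Rep ν T k)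
    (h' : Rep ν T' k') (hk : Measurable k) {C : ℝ} (hC : ∀ p, ‖k p‖ ≤ C)
    (hk' : Measurable k') {C' : ℝ} (hC' : ∀ p, ‖k' p‖ ≤ C') :
    ‖T - T'‖ ≤ ((nk ν (fun p => k p - k' p)) ^ (1 / 2 : ℝ)).toReal := by
  obtain ⟨T'', h1, h2⟩ := exists_op (ν := ν) (hk.sub hk') (C := C + C') (fun p =>
    (norm_sub_le _ _).trans (add_le_add (hC p) (hC' p)))
  rw [(h.sub h' hk hC hk' hC').unique h1]
  exact h2

/-- Every integral operator with kernel `k` is compact. -/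
def Cpt (ν : Measure Y) (k : Y × Y → ℂ) : Prop :=
  ∀ T : Lp ℂ 2 ν →L[ℂ] Lp ℂ 2 ν, Rep ν T k → IsCompactOperator T

/-- Limits of compact kernels are compact. -/
theorem Cpt.lim {k : Y × Y → ℂ} (hk : Measurable k) {C : ℝ} (hC : ∀ p, ‖k p‖ ≤ C)
    {kn : ℕ → Y × Y → ℂ} (hkn : ∀ n, Measurable (kn n)) (hCn : ∀ n p, ‖kn n p‖ ≤ C)
    (hlim : ∀ p, Tendsto (fun n => kn n p) atTop (𝓝 (k p))) (hc : ∀ n, Cpt ν (kn n)) :
    Cpt ν k := by
  intro T hT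
  choose Tn hTn _ using fun n => exists_op (ν := ν) (hkn n) (hCn n)
  have h1 : Tendsto (fun n => nk ν (fun p => kn n p - k p)) atTop (𝓝 0) := by
    have h2 : (0 : ℝ≥0∞) = ∫⁻ _ : Y × Y, (0 : ℝ≥0∞) ∂(ν.prod ν) := by simp
    rw [h2]
    refine tendsto_lintegral_of_dominated_convergence
      (fun _ => (ENNReal.ofReal (C + C)) ^ (2 : ℝ)) ?_ ?_ ?_ ?_
    · intro n
      exact ((hkn n).sub hk).enorm.pow_const _
    · intro n
      filter_upwards with p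
      refine ENNReal.rpow_le_rpow ?_ (by norm_num)
      rw [← ofReal_norm]
      exact ENNReal.ofReal_le_ofReal ((norm_sub_le _ _).trans (add_le_add (hCn n p) (hC p)))
    · rw [lintegral_const]
      exact (ENNReal.mul_lt_top (ENNReal.rpow_lt_top_of_nonneg (by norm_num)
        ENNReal.ofReal_ne_top) (measure_lt_top _ _)).ne
    · filter_upwards with p
      have h3 : Tendsto (fun n => kn n p - k p) atTop (𝓝 0) := by
        have := (hlim p).sub_const (k p)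
        rwa [sub_self] at this
      have h4 : Tendsto (fun n => ‖kn n p - k p‖ₑ) atTop (𝓝 0) := by
        have := h3.enorm
        rwa [enorm_zero] at this
      have h5 : Tendsto (fun n => ‖kn n p - k p‖ₑ ^ (2 : ℝ)) atTop (𝓝 ((0 : ℝ≥0∞) ^ (2 : ℝ))) :=
        (ENNReal.continuous_rpow_const.tendsto 0).comp h4
      rwa [ENNReal.zero_rpow_of_pos (by norm_num)] at h5
  have h2 : Tendsto (fun n => ((nk ν (fun p => kn n p - k p)) ^ (1 / 2 : ℝ)).toReal) atTop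
      (𝓝 0) := by
    have h3 : Tendsto (fun n => (nk ν (fun p => kn n p - k p)) ^ (1 / 2 : ℝ)) atTop
        (𝓝 ((0 : ℝ≥0∞) ^ (1 / 2 : ℝ))) :=
      (ENNReal.continuous_rpow_const.tendsto 0).comp h1
    rw [ENNReal.zero_rpow_of_pos (by norm_num)] at h3
    have h4 := (ENNReal.tendsto_toReal ENNReal.zero_ne_top).comp h3
    rw [ENNReal.toReal_zero] at h4
    exact h4
  have h3 : Tendsto Tn atTop (𝓝 T) := by
    rw [tendsto_iff_norm_sub_tendsto_zero]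
    refine squeeze_zero (fun n => norm_nonneg _) (fun n => ?_) h2
    exact (hTn n).norm_diff hT (hkn n) (hCn n) hk hC
  exact isCompactOperator_of_tendsto h3 (Eventually.of_forall fun n => hc n _ (hTn n))

end Pool.Agent.Zk91.PF
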