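import Pool.Agent.Zk91.PF.Ker

set_option autoImplicit false

/-!
Integral operators with bounded measurable kernels are compact; hermitian kernels give symmetric
operators; invariant kernels commute with measure preserving maps.
-/

namespace Pool.Agent.Zk91.PF

open MeasureTheory Set Filter Topology
open scoped ENNReal NNReal ComplexConjugate

variable {Y : Type*} [MeasurableSpace Y] {ν : Measure Y} [IsFiniteMeasure ν]

theorem Cpt.add {k k' : Y × Y → ℂ} (hk : Measurable k) {C : ℝ} (hC : ∀ p, ‖k p‖ ≤ C)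
    (hk' : Measurable k') {C' : ℝ} (hC' : ∀ p, ‖k' p‖ ≤ C') (h : Cpt ν k) (h' : Cpt ν k') :
    Cpt ν (fun p => k p + k' p) := by
  intro T hT
  obtain ⟨T1, h1, _⟩ := exists_op (ν := ν) hk hC
  obtain ⟨T2, h2, _⟩ := exists_op (ν := ν) hk' hC'
  rw [hT.unique (h1.add h2 hk hC hk' hC')]
  exact (h T1 h1).add (h' T2 h2)

theorem Cpt.sub {k k' : Y × Y → ℂ} (hk : Measurable k) {C : ℝ} (hC : ∀ p, ‖k p‖ ≤ C)
    (hk' : Measurable k') {C' : ℝ} (hC' : ∀ p, ‖k' p‖ ≤ C') (h : Cpt ν k) (h' : Cpt ν k') :
    Cpt ν (fun p => k p - k' p) := by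
  intro T hT
  obtain ⟨T1, h1, _⟩ := exists_op (ν := ν) hk hC
  obtain ⟨T2, h2, _⟩ := exists_op (ν := ν) hk' hC'
  rw [hT.unique (h1.sub h2 hk hC hk' hC')]
  exact (h T1 h1).sub (h' T2 h2)

theorem Cpt.const_mul {k : Y × Y → ℂ} (hk : Measurable k) {C : ℝ} (hC : ∀ p, ‖k p‖ ≤ C)
    (c : ℂ) (h : Cpt ν k) : Cpt ν (fun p => c * k p) := by
  intro T hT
  obtain ⟨T1, h1, _⟩ := exists_op (ν := ν) hk hC
  have h2 : Rep ν (c • T1) (fun p => c * k p) := by
    intro g
    filter_upwards [Lp.coeFn_smul c (T1 g), h1 g] with y hy hy2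
    have h3 : (c • T1) g = c • T1 g := rfl
    rw [h3, hy, Pi.smul_apply, hy2, ← integral_smul]
    refine integral_congr_ae ?_
    filter_upwards with y'
    simp only [smul_eq_mul]
    ring
  rw [hT.unique h2]
  exact (h T1 h1).smul c

theorem meas_ind {E : Set (Y × Y)} (hE : MeasurableSet E) :
    Measurable (E.indicator (fun _ => (1 : ℂ))) :=
  measurable_const.indicator hE

theorem norm_ind (E : Set (Y × Y)) (p : Y × Y) : ‖E.indicator (fun _ => (1 : ℂ)) p‖ ≤ 1 := by
  by_cases h : p ∈ E
  · rw [indicator_of_mem h]; simp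
  · rw [indicator_of_notMem h]; simp

theorem cpt_rect {A B : Set Y} (hA : MeasurableSet A) (hB : MeasurableSet B) :
    Cpt ν ((A ×ˢ B).indicator (fun _ => (1 : ℂ))) := by
  intro T hT
  obtain ⟨φ, hφ⟩ : ∃ φ : Lp ℂ 2 ν →L[ℂ] ℂ, ∀ g, φ g = ∫ y in B, g y ∂ν :=
    ⟨innerSL ℂ (indicatorConstLp 2 hB (measure_ne_top ν B) (1 : ℂ)), fun g => by
      rw [innerSL_apply_apply]
      exact L2.inner_indicatorConstLp_one hB (measure_ne_top ν B) g⟩
  obtain ⟨v, hv⟩ : ∃ v : Lp ℂ 2 ν, v = indicatorConstLp 2 hA (measure_ne_top ν A) (1 : ℂ) :=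
    ⟨_, rfl⟩
  have h1 : T = (ContinuousLinearMap.toSpanSingleton ℂ v).comp φ := by
    ext1 g
    apply Lp.ext
    rw [ContinuousLinearMap.comp_apply, ContinuousLinearMap.toSpanSingleton_apply]
    have hvA : v =ᵐ[ν] A.indicator fun _ => (1 : ℂ) := by
      rw [hv]; exact indicatorConstLp_coeFn
    filter_upwards [hT g, Lp.coeFn_smul (φ g) v, hvA] with y hy hy2 hy3
    rw [hy, hy2, Pi.smul_apply, hy3, hφ]
    by_cases hyA : y ∈ A
    · rw [indicator_of_mem hyA, smul_eq_mul, mul_one, ← integral_indicator hB]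
      refine integral_congr_ae ?_
      filter_upwards with y'
      by_cases hyB : y' ∈ B
      · rw [indicator_of_mem (show (y, y') ∈ A ×ˢ B from ⟨hyA, hyB⟩), indicator_of_mem hyB,
          one_mul]
      · rw [indicator_of_notMem (fun h => hyB h.2), indicator_of_notMem hyB, zero_mul]
    · rw [indicator_of_notMem hyA, smul_zero]
      have : ∀ y', (A ×ˢ B).indicator (fun _ => (1 : ℂ)) (y, y') * g y' = 0 := fun y' => by
        rw [indicator_of_notMem (fun h => hyA h.1), zero_mul]
      simp only [this, integral_zero]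
  rw [h1]
  exact (isCompactOperator_of_locallyCompactSpace_dom φ).clm_comp
    (ContinuousLinearMap.toSpanSingleton ℂ v)

theorem cpt_set {E : Set (Y × Y)} (hE : MeasurableSet E) :
    Cpt ν (E.indicator (fun _ => (1 : ℂ))) := by
  refine MeasurableSpace.induction_on_inter
    (C := fun s _ => Cpt ν (s.indicator (fun _ => (1 : ℂ)))) generateFrom_prod.symm
    isPiSystem_prod ?_ ?_ ?_ ?_ E hE
  · have h := cpt_rect (ν := ν) (A := (∅ : Set Y)) (B := (∅ : Set Y)) .empty .empty
    rwa [empty_prod] at h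
  · rintro t ⟨A, hA, B, hB, rfl⟩
    exact cpt_rect hA hB
  · intro t ht h
    have h1 := cpt_rect (ν := ν) (A := (univ : Set Y)) (B := (univ : Set Y)) .univ .univ
    rw [univ_prod_univ] at h1
    have h2 := h1.sub (meas_ind .univ) (norm_ind univ) (meas_ind ht) (norm_ind t) h
    have h3 : (fun p => (univ : Set (Y × Y)).indicator (fun _ => (1 : ℂ)) p -
        t.indicator (fun _ => (1 : ℂ)) p) = tᶜ.indicator (fun _ => (1 : ℂ)) := by
      funext p
      by_cases hp : p ∈ t
      · rw [indicator_of_mem hp, indicator_of_mem (mem_univ p),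
          indicator_of_notMem (show p ∉ tᶜ from fun h => h hp), sub_self]
      · rw [indicator_of_notMem hp, indicator_of_mem (mem_univ p), indicator_of_mem hp, sub_zero]
    rwa [h3] at h2
  · intro f hdisj hf hc
    have hacc : ∀ n, MeasurableSet (accumulate f n) := fun n =>
      MeasurableSet.biUnion (to_countable _) fun i _ => hf i
    have h1 : ∀ n, Cpt ν ((accumulate f n).indicator (fun _ => (1 : ℂ))) := by
      intro n
      induction n with
      | zero => rw [accumulate_zero_nat]; exact hc 0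
      | succ n ih =>
        rw [accumulate_succ]
        have h2 := ih.add (meas_ind (hacc n)) (norm_ind _) (meas_ind (hf (n + 1)))
          (norm_ind _) (hc (n + 1))
        have h3 : Disjoint (accumulate f n) (f (n + 1)) :=
          disjoint_accumulate hdisj (Nat.lt_succ_self n)
        rwa [indicator_union_of_disjoint h3]
    have h2 : Cpt ν ((⋃ n, accumulate f n).indicator (fun _ => (1 : ℂ))) := by
      refine Cpt.lim (meas_ind (MeasurableSet.iUnion hacc)) (norm_ind _)
        (fun n => meas_ind (hacc n)) (fun n => norm_ind _) (fun p => ?_) h1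
      exact ((monotone_accumulate (s := f)).tendsto_indicator _ (fun _ => (1 : ℂ)) p).mono_right
        (pure_le_nhds _)
    rwa [iUnion_accumulate] at h2

theorem cpt_simple (f : SimpleFunc (Y × Y) ℂ) : Cpt ν f := by
  induction f using SimpleFunc.induction with
  | const c hs =>
    rename_i s
    have h := (cpt_set (ν := ν) hs).const_mul (meas_ind hs) (norm_ind _) c
    have h2 : (SimpleFunc.piecewise s hs (SimpleFunc.const _ c) (SimpleFunc.const _ 0) :
        Y × Y → ℂ) = fun p => c * s.indicator (fun _ => (1 : ℂ)) p := by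
      funext p
      rw [SimpleFunc.piecewise_apply]
      by_cases hp : p ∈ s
      · rw [if_pos hp, indicator_of_mem hp, mul_one]; rfl
      · rw [if_neg hp, indicator_of_notMem hp, mul_zero]; rfl
    rw [h2]
    exact h
  | add _ hf hg =>
    rename_i f g _
    obtain ⟨C, hC⟩ := f.exists_forall_norm_le
    obtain ⟨C', hC'⟩ := g.exists_forall_norm_le
    exact hf.add f.measurable hC g.measurable hC' hg

/-- Integral operators with bounded measurable kernels are compact. -/
theorem cpt_bdd {k : Y × Y → ℂ} (hk : Measurable k) {C : ℝ} (hC : ∀ p, ‖k p‖ ≤ C) :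
    Cpt ν k := by
  have hs := hk.stronglyMeasurable
  have hC0 : 0 ≤ |C| := abs_nonneg C
  have hC' : ∀ p, ‖k p‖ ≤ |C| := fun p => (hC p).trans (le_abs_self C)
  exact Cpt.lim hk hC' (fun n => (hs.approxBounded |C| n).measurable)
    (fun n p => hs.norm_approxBounded_le hC0 n p)
    (fun p => hs.tendsto_approxBounded_of_norm_le (hC' p))
    (fun n => cpt_simple _)

/-- Hermitian kernels give symmetric operators. -/
theorem Rep.symm {T : Lp ℂ 2 ν →L[ℂ] Lp ℂ 2 ν} {k : Y × Y → ℂ} (h : Rep ν T k)
    (hk : Measurable k) {C : ℝ} (hC : ∀ p, ‖k p‖ ≤ C)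
    (hh : ∀ y y', k (y', y) = conj (k (y, y'))) : T.IsSymmetric := by
  intro f g
  change inner ℂ (T f) g = inner ℂ f (T g)
  rw [L2.inner_def, L2.inner_def]
  have hf : Integrable (f : Y → ℂ) ν := (Lp.memLp f).integrable (by norm_num)
  have hg : Integrable (g : Y → ℂ) ν := (Lp.memLp g).integrable (by norm_num)
  have h1 : ∫ y, inner ℂ (T f y) (g y) ∂ν =
      ∫ y, ∫ y', k (y', y) * (conj (f y') * g y) ∂ν ∂ν := by
    refine integral_congr_ae ?_
    filter_upwards [h f] with y hy
    rw [hy, RCLike.inner_apply, ← integral_conj, ← integral_const_mul]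
    refine integral_congr_ae ?_
    filter_upwards with y'
    rw [map_mul, hh y y']
    ring
  have h2 : ∫ y, inner ℂ (f y) (T g y) ∂ν =
      ∫ y, ∫ y', k (y, y') * (conj (f y) * g y') ∂ν ∂ν := by
    refine integral_congr_ae ?_
    filter_upwards [h g] with y hy
    rw [hy, RCLike.inner_apply, ← integral_mul_const]
    refine integral_congr_ae ?_
    filter_upwards with y'
    ring
  rw [h1, h2]
  refine integral_integral_swap (f := fun y y' => k (y', y) * (conj (f y') * g y)) ?_
  have h3 : Integrable (fun p : Y × Y => g p.1 * conj (f p.2)) (ν.prod ν) := by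
    refine Integrable.mul_prod hg (g := fun y => conj (f y)) ?_
    exact (RCLike.conjLIE (K := ℂ)).toContinuousLinearEquiv.toContinuousLinearMap.integrable_comp hf
  have h4 : Integrable (fun p : Y × Y => k (p.2, p.1) * (g p.1 * conj (f p.2))) (ν.prod ν) := by
    refine Integrable.bdd_mul h3 (c := C) ?_ ?_
    · exact (hk.comp measurable_swap).aestronglyMeasurable
    · filter_upwards with p
      exact hC _
  refine h4.congr ?_
  filter_upwards with p
  simp only [Function.uncurry]
  ring

/-- Invariant kernels commute with measure preserving maps. -/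
theorem Rep.comm {T : Lp ℂ 2 ν →L[ℂ] Lp ℂ 2 ν} {k : Y × Y → ℂ} (h : Rep ν T k)
    (hk : Measurable k) {σ : Y → Y} (hσ : MeasurePreserving σ ν ν)
    (hi : ∀ y y', k (σ y, σ y') = k (y, y')) (g : Lp ℂ 2 ν) :
    T (Lp.compMeasurePreserving σ hσ g) = Lp.compMeasurePreserving σ hσ (T g) := by
  apply Lp.ext
  have h1 : ∀ᵐ y ∂ν, (T g) (σ y) = ∫ y', k (σ y, y') * g y' ∂ν :=
    hσ.quasiMeasurePreserving.ae (h g)
  filter_upwards [h (Lp.compMeasurePreserving σ hσ g), Lp.coeFn_compMeasurePreserving (T g) hσ, h1]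
    with y hy hy2 hy3
  rw [hy, hy2, Function.comp_apply, hy3]
  have h2 : ∫ y', k (σ y, y') * g y' ∂ν = ∫ y', k (σ y, σ y') * g (σ y') ∂ν := by
    have h3 : AEStronglyMeasurable (fun y' => k (σ y, y') * g y') (ν.map σ) := by
      rw [hσ.map_eq]
      exact ((hk.comp measurable_prodMk_left).mul
        (Lp.stronglyMeasurable g).measurable).aestronglyMeasurable
    have h4 := integral_map (μ := ν) (φ := σ) hσ.measurable.aemeasurable h3
    rw [hσ.map_eq] at h4
    exact h4
  rw [h2]
  refine integral_congr_ae ?_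
  filter_upwards [Lp.coeFn_compMeasurePreserving g hσ] with y' hy'
  rw [hy', hi]
  rfl

end Pool.Agent.Zk91.PF
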