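import Pool.Agent.Zk91.PF.Core
import Pool.Agent.K3h17.BK.FinF

set_option autoImplicit false

/-!
Eigenfunctions and invariant sets of the product of the billiard in a convex polygon and a measure
preserving flow: the transfer from the billiard to the product.
-/

namespace Pool.Agent.Zk91.PF

open Complex Set MeasureTheory Filter Topology Pool.Agent.W780.PG Pool.Agent.W780.BB
  Pool.Agent.TH578.BE Pool.Agent.K3h17.BK

open scoped Real ComplexConjugate ENNReal

variable {n : ℕ} {p : Fin (n + 3) → ℂ} {Y : Type*} [MeasurableSpace Y] {ν : Measure Y}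
  {S : ℝ → Y → Y}

theorem vol_phase_pos (hp : IsConvexPolygon p) : 0 < (volume (phase p)).toReal := by
  have hB : S_Basic := Pool.Agent.W174.PG.basic
  have hH : S_Hull := Pool.Agent.W975.PG.hull hB
  have hrr : region p = reg p := (hH n p hp).2
  obtain ⟨_, hop, _, _, _, hne, _⟩ := hB n p hp
  rw [← hrr] at hop hne
  refine ENNReal.toReal_pos ?_ vol_phase.ne
  have h1 : volume (phase p) = volume (region p) * volume (Ico (0 : ℝ) (2 * π)) := by
    rw [phase, Measure.volume_eq_prod, Measure.prod_prod]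
  rw [h1]
  refine mul_ne_zero (hop.measure_pos volume hne).ne' ?_
  rw [Real.volume_Ico]
  simp [Real.pi_pos]

/-- the mean over the phase space -/
noncomputable def mn (p : Fin (n + 3) → ℂ) (F : (ℂ × ℝ) × Y → ℂ) (y : Y) : ℂ :=
  (((volume (phase p)).toReal : ℝ) : ℂ)⁻¹ * ∫ x in phase p, F (x, y)

theorem meas_mn {F : (ℂ × ℝ) × Y → ℂ} (hF : Measurable F) : Measurable (mn p F) := by
  have : IsFiniteMeasure (volume.restrict (phase p)) := fin_phase
  unfold mn
  refine Measurable.const_mul ?_ _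
  have h1 : StronglyMeasurable (fun r : Y × (ℂ × ℝ) => F (r.2, r.1)) :=
    (hF.comp (measurable_snd.prodMk measurable_fst)).stronglyMeasurable
  exact (h1.integral_prod_right (ν := volume.restrict (phase p))).measurable

theorem mn_flow (hp : IsConvexPolygon p) (hS : IsFlow ν S) {F : (ℂ × ℝ) × Y → ℂ}
    (hF : Measurable F) {C : ℝ} (hC : ∀ q, ‖F q‖ ≤ C) {ω : ℝ} {χ : Fin (n + 3) → ℂ}
    (hχ : ∀ i, χ i = 1) (hE : IsProdEigenfunction p S ω χ F) (t : ℝ) (y : Y) :
    mn p F (S t y) = exp (((ω * t : ℝ) : ℂ) * I) * mn p F y := by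
  have hcan : ∀ (τ s : ℝ) (u : ℂ),
      exp (((-(ω * (s + τ)) : ℝ) : ℂ) * I) * (exp (((ω * s : ℝ) : ℂ) * I) * u) =
        exp (((-(ω * τ) : ℝ) : ℂ) * I) * u := by
    intro τ s u
    rw [← mul_assoc, ← Complex.exp_add]
    congr 2
    push_cast
    ring
  have h := int_eq hp (Z := Y × ℝ) (R := fun s q => (S s q.1, s + q.2))
    (fun q => by simp only [hS.zero, zero_add]) (fun s t q => by simp only [hS.add, add_assoc])
    (φ := fun x q => exp (((-(ω * q.2) : ℝ) : ℂ) * I) * F (x, q.1)) ⟨?_, ?_, ?_⟩ ?_ (C := C) ?_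
    t (y, 0)
  · simp only [add_zero, mul_zero, neg_zero, Complex.ofReal_zero, zero_mul, Complex.exp_zero,
      one_mul] at h
    rw [integral_const_mul] at h
    unfold mn
    rw [← h]
    have e : exp (((ω * t : ℝ) : ℂ) * I) * exp (((-(ω * t) : ℝ) : ℂ) * I) = 1 := by
      rw [← Complex.exp_add]
      push_cast
      ring_nf
      exact Complex.exp_zero
    calc _ = (exp (((ω * t : ℝ) : ℂ) * I) * exp (((-(ω * t) : ℝ) : ℂ) * I)) *
        ((((volume (phase p)).toReal : ℝ) : ℂ)⁻¹ * ∫ x in phase p, F (x, S t y)) := by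
          rw [e, one_mul]
      _ = _ := by ring
  · intro z θ q
    simp only [hE.periodic]
  · intro z θ s q h1 h2
    simp only [hE.free z θ s _ h1 h2]
    exact hcan _ _ _
  · intro i x hx θ s r q hs hr h1 h2
    simp only [hE.reflect i x hx θ s r _ hs hr h1 h2, hχ i, one_mul]
    exact hcan _ _ _
  · intro q
    exact (meas_sec' hF q.1).const_mul _
  · intro x q
    have h1 : ‖exp (((-(ω * q.2) : ℝ) : ℂ) * I)‖ = 1 := W780.BB.norm_dir _
    rw [norm_mul, h1, one_mul]
    exact hC _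

theorem mn_le {F : (ℂ × ℝ) × Y → ℂ} (hp : IsConvexPolygon p) {C : ℝ} (hC : ∀ q, ‖F q‖ ≤ C)
    (y : Y) : ‖mn p F y‖ ≤ C := by
  have hV := vol_phase_pos hp
  unfold mn
  rw [norm_mul, norm_inv, Complex.norm_real, Real.norm_eq_abs, abs_of_pos hV,
    inv_mul_le_iff₀ hV, mul_comm]
  exact norm_setIntegral_le_of_norm_le_const vol_phase (fun x _ => hC _)

/-- The transfer principle. -/
theorem prod_core [IsFiniteMeasure ν] (hp : IsConvexPolygon p) (hS : IsFlow ν S)
    {F : (ℂ × ℝ) × Y → ℂ} (hF : Measurable F) {C : ℝ} (hC : ∀ q, ‖F q‖ ≤ C) {ω : ℝ}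
    {χ : Fin (n + 3) → ℂ} (hχ : ∀ i, ‖χ i‖ = 1) (hE : IsProdEigenfunction p S ω χ F)
    (hav : ∀ (ω' : ℝ) (g : Y → ℂ), Measurable g → (∀ y, ‖g y‖ ≤ 1) →
      (∀ t, ∀ᵐ y ∂ν, g (S t y) = exp (((ω' * t : ℝ) : ℂ) * I) * g y) →
      ∃ c : ℂ, (∀ᵐ x ∂(volume.restrict (phase p)), av ν F g x = c) ∧ (c ≠ 0 → ∀ i, χ i = 1)) :
    ∃ m : Y → ℂ, Measurable m ∧ (∀ t y, m (S t y) = exp (((ω * t : ℝ) : ℂ) * I) * m y) ∧
      (∀ᵐ q ∂((volume.restrict (phase p)).prod ν), F q = m q.2) ∧
      ((∃ i, χ i ≠ 1) → ∀ y, m y = 0) := by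
  have : IsFiniteMeasure (volume.restrict (phase p)) := fin_phase
  by_cases h1 : ∀ i, χ i = 1
  swap
  · refine ⟨fun _ => 0, measurable_const, fun t y => by simp, ?_, fun _ _ => rfl⟩
    refine core_zero hp hS hF hC hχ hE fun ω' g hg hg1 hgS => ?_
    obtain ⟨c, hc, hc2⟩ := hav ω' g hg hg1 hgS
    have hc0 : c = 0 := by
      by_contra h
      exact h1 (hc2 h)
    rw [hc0] at hc
    exact hc
  have hm := meas_mn (p := p) hF
  have hmf := mn_flow hp hS hF hC h1 hE
  have hmb := mn_le hp hC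
  have hV := vol_phase_pos hp
  refine ⟨mn p F, hm, hmf, ?_, fun ⟨i, hi⟩ => absurd (h1 i) hi⟩
  obtain ⟨b, hb⟩ : ∃ b : (ℂ × ℝ) × Y → ℂ, b = fun q => F q - mn p F q.2 := ⟨_, rfl⟩
  have hbm : Measurable b := by rw [hb]; exact hF.sub (hm.comp measurable_snd)
  have hbC : ∀ q, ‖b q‖ ≤ C + C := fun q => by
    rw [hb]
    exact (norm_sub_le _ _).trans (add_le_add (hC q) (hmb _))
  have hbE : IsProdEigenfunction p S ω χ b := by
    rw [hb]
    refine ⟨fun z θ y => ?_, fun z θ s y a1 a2 => ?_, fun i x hx θ s r y hs hr a1 a2 => ?_⟩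
    · simp only [hE.periodic]
    · simp only
      rw [hE.free z θ s y a1 a2, hmf]
      ring
    · simp only
      rw [hE.reflect i x hx θ s r y hs hr a1 a2, hmf, h1 i]
      ring
  have hfin := core_zero hp hS hbm hbC hχ hbE fun ω' g hg hg1 hgS => by
    obtain ⟨c, hc, -⟩ := hav ω' g hg hg1 hgS
    have hFi : ∀ x, Integrable (fun y => F (x, y) * g y) ν := int_sec' hF hC hg hg1
    have hmi : Integrable (fun y => mn p F y * g y) ν := by
      refine Integrable.of_bound (hm.mul hg).aestronglyMeasurable C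
        (Eventually.of_forall fun y => ?_)
      rw [norm_mul]
      calc ‖mn p F y‖ * ‖g y‖ ≤ C * 1 :=
            mul_le_mul (hmb y) (hg1 y) (norm_nonneg _) ((norm_nonneg _).trans (hmb y))
        _ = C := mul_one C
    have e1 : ∀ x, av ν b g x = av ν F g x - ∫ y, mn p F y * g y ∂ν := fun x => by
      unfold av
      rw [← integral_sub (hFi x) hmi]
      refine integral_congr_ae (Eventually.of_forall fun y => ?_)
      rw [hb]
      simp only
      ring
    -- the constants agree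
    have e2 : ∫ x in phase p, av ν F g x =
        (((volume (phase p)).toReal : ℝ) : ℂ) * ∫ y, mn p F y * g y ∂ν := by
      have a1 := quad_av (p := p) (ν := ν) hF hC hg hg1 (a := fun _ => 1) measurable_const
        (A := 1) (fun _ => by simp)
      simp only [map_one, mul_one] at a1
      rw [← a1, ← integral_const_mul]
      refine integral_congr_ae (Eventually.of_forall fun y => ?_)
      simp only
      unfold mn
      have hV0 : (((volume (phase p)).toReal : ℝ) : ℂ) ≠ 0 := by exact_mod_cast hV.ne'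
      field_simp
    have e3 : ∫ x in phase p, av ν F g x = (((volume (phase p)).toReal : ℝ) : ℂ) * c := by
      rw [integral_congr_ae hc, integral_const, Measure.real, Measure.restrict_apply_univ]
      simp
    have e4 : c = ∫ y, mn p F y * g y ∂ν := by
      rw [e3] at e2
      have hV0 : (((volume (phase p)).toReal : ℝ) : ℂ) ≠ 0 := by exact_mod_cast hV.ne'
      exact mul_left_cancel₀ hV0 e2
    filter_upwards [hc] with x hx
    rw [e1, hx, ← e4, sub_self]
  filter_upwards [hfin] with q hq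
  rw [hb] at hq
  exact sub_eq_zero.1 hq

/-- Eigenfunctions of the billiard for which the change under turning the directions belongs to the
class `Sc` are trivial. -/
def ScalarRigid (p : Fin (n + 3) → ℂ) (χ : Fin (n + 3) → ℂ) (Sc : (ℝ → ENNReal) → Prop) : Prop :=
  ∀ (ω : ℝ) (f : ℂ × ℝ → ℂ), Measurable f → IsEigenfunction p ω χ f → Sc (modulus p f) →
    ∃ c : ℂ, (∀ᵐ x : ℂ × ℝ, x ∈ phase p → f x = c) ∧ (c ≠ 0 → ω = 0 ∧ ∀ i, χ i = 1)

theorem meas_phase (hp : IsConvexPolygon p) : MeasurableSet (phase p) := by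
  have hB : S_Basic := Pool.Agent.W174.PG.basic
  have hH : S_Hull := Pool.Agent.W975.PG.hull hB
  have hrr : region p = reg p := (hH n p hp).2
  have hopen : IsOpen (reg p) := (hB n p hp).2.1
  have hregm : MeasurableSet (region p) := by rw [hrr]; exact hopen.measurableSet
  exact hregm.prod measurableSet_Ico

theorem prodModulus_cp (F : (ℂ × ℝ) × Y → ℂ) (h : ℝ) :
    prodModulus p ν (fun q => cp (F q)) h ≤ 2 * prodModulus p ν F h := by
  unfold prodModulus
  rw [← lintegral_const_mul' _ _ (by norm_num)]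
  refine lintegral_mono fun y => ?_
  simp only
  unfold modulus
  rw [← lintegral_const_mul' _ _ (by norm_num)]
  refine lintegral_mono fun x => ?_
  have h2 : (2 : ENNReal) = ENNReal.ofReal 2 := by norm_num
  rw [h2, ← ENNReal.ofReal_mul (by norm_num)]
  exact ENNReal.ofReal_le_ofReal (cp_lip _ _)

theorem ci_mul {c : ℂ} (hc : ‖c‖ = 1) (u : ℂ) : ci (c * u) = c * ci u := by
  unfold ci
  rw [norm_mul, hc, one_mul, mul_smul_comm]

theorem prod_main [IsFiniteMeasure ν] (hp : IsConvexPolygon p) (hS : IsFlow ν S)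
    {χ : Fin (n + 3) → ℂ} (hχ : ∀ i, ‖χ i‖ = 1) {Sc : (ℝ → ENNReal) → Prop}
    (hmono : ∀ m m' : ℝ → ENNReal, (∀ h, m' h ≤ 2 * m h) → Sc m → Sc m')
    (hsc : ScalarRigid p χ Sc) {F : (ℂ × ℝ) × Y → ℂ} (hF : Measurable F) {ω : ℝ}
    (hE : IsProdEigenfunction p S ω χ F) (hM : Sc (prodModulus p ν F)) :
    ∃ m : Y → ℂ, Measurable m ∧ (∀ t y, m (S t y) = exp (((ω * t : ℝ) : ℂ) * I) * m y) ∧
      (∀ᵐ q ∂((volume.restrict (phase p)).prod ν), F q = m q.2) ∧
      ((∃ i, χ i ≠ 1) → ∀ y, m y = 0) := by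
  have hE' : IsProdEigenfunction p S ω χ (fun q => cp (F q)) := by
    refine ⟨fun z θ y => ?_, fun z θ s y a1 a2 => ?_, fun i x hx θ s r y hs hr a1 a2 => ?_⟩
    · simp only [hE.periodic]
    · rw [hE.free z θ s y a1 a2, dir_def, cp_mul (W780.BB.norm_dir (ω * s))]
    · rw [hE.reflect i x hx θ s r y hs hr a1 a2, cp_mul]
      rw [norm_mul, hχ i, one_mul]
      exact W780.BB.norm_dir (ω * (s + r))
  have hFm : Measurable (fun q => cp (F q)) := meas_cp.comp hF
  obtain ⟨m, hm, hmS, hmF, hm0⟩ := prod_core hp hS hFm (C := 1) (fun q => cp_le _) hχ hE'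
    (fun ω' g hg hg1 hgS => by
      obtain ⟨c, hc, hc2⟩ := hsc (ω + ω') (av ν (fun q => cp (F q)) g) (meas_av hFm hg)
        (av_eigen hS hFm hE' hg hgS)
        (hmono _ _ (fun h => (mod_av hFm (C := 1) (fun q => cp_le _) hg hg1 h).trans
          (prodModulus_cp F h)) hM)
      exact ⟨c, (ae_restrict_iff' (meas_phase hp)).2 hc, fun h => (hc2 h).2⟩)
  refine ⟨fun y => ci (m y), meas_ci.comp hm, fun t y => ?_, ?_, fun h y => ?_⟩
  · simp only
    rw [hmS, dir_def, ci_mul (W780.BB.norm_dir (ω * t))]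
  · filter_upwards [hmF] with q hq
    rw [← hq, ci_cp]
  · simp only
    rw [hm0 h y]
    unfold ci
    rw [smul_zero]

/-- The mean over `y` of the measure of the set of states whose membership in `{x | (x, y) ∈ A}`
changes when the direction is turned by `h`. -/
noncomputable def prodOm (p : Fin (n + 3) → ℂ) (ν : Measure Y) (A : Set ((ℂ × ℝ) × Y)) (h : ℝ) :
    ENNReal := ∫⁻ y, om p {x | (x, y) ∈ A} h ∂ν

theorem modulus_ind {A : Set (ℂ × ℝ)} (hA : MeasurableSet A) (h : ℝ) :
    modulus p (A.indicator fun _ => (1 : ℂ)) h = om p A h := by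
  unfold modulus om
  have hm : MeasurableSet {x : ℂ × ℝ | ¬ (x ∈ A ↔ (x.1, x.2 + h) ∈ A)} := meas_Bp hA h
  have h1 : ∀ x : ℂ × ℝ, ENNReal.ofReal ‖A.indicator (fun _ => (1 : ℂ)) (x.1, x.2 + h) -
      A.indicator (fun _ => (1 : ℂ)) x‖ =
      {x : ℂ × ℝ | ¬ (x ∈ A ↔ (x.1, x.2 + h) ∈ A)}.indicator (fun _ => (1 : ENNReal)) x := by
    intro x
    by_cases a1 : x ∈ A <;> by_cases a2 : (x.1, x.2 + h) ∈ A
    · rw [indicator_of_mem a1, indicator_of_mem a2, indicator_of_notMem]
      · simp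
      · simp only [mem_ofPred_eq, not_not]; tauto
    · rw [indicator_of_mem a1, indicator_of_notMem a2, indicator_of_mem]
      · simp
      · simp only [mem_ofPred_eq]; tauto
    · rw [indicator_of_notMem a1, indicator_of_mem a2, indicator_of_mem]
      · simp
      · simp only [mem_ofPred_eq]; tauto
    · rw [indicator_of_notMem a1, indicator_of_notMem a2, indicator_of_notMem]
      · simp
      · simp only [mem_ofPred_eq, not_not]; tauto
  simp only [h1]
  rw [lintegral_indicator hm, setLIntegral_const, one_mul, Measure.restrict_apply hm, inter_comm]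
  rfl

theorem prod_sets [IsFiniteMeasure ν] (hp : IsConvexPolygon p) (hS : IsFlow ν S)
    {Sc : (ℝ → ENNReal) → Prop}
    (hmono : ∀ m m' : ℝ → ENNReal, (∀ h, m' h ≤ 2 * m h) → Sc m → Sc m')
    (hsc : ScalarRigid p (fun _ => 1) Sc) {A : Set ((ℂ × ℝ) × Y)} (hA : MeasurableSet A)
    (hI : IsProdInvariant p S A) (hM : Sc (prodOm p ν A)) :
    ∃ B : Set Y, MeasurableSet B ∧ (∀ t y, S t y ∈ B ↔ y ∈ B) ∧
      ∀ᵐ q ∂((volume.restrict (phase p)).prod ν), (q ∈ A ↔ q.2 ∈ B) := by
  have hiff : ∀ {a b : (ℂ × ℝ) × Y}, (a ∈ A ↔ b ∈ A) →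
      A.indicator (fun _ => (1 : ℂ)) a = A.indicator (fun _ => (1 : ℂ)) b := by
    intro a b hab
    by_cases ha : a ∈ A
    · rw [indicator_of_mem ha, indicator_of_mem (hab.1 ha)]
    · rw [indicator_of_notMem ha, indicator_of_notMem (fun h => ha (hab.2 h))]
  have hE : IsProdEigenfunction p S 0 (fun _ => 1) (A.indicator fun _ => (1 : ℂ)) := by
    refine ⟨fun z θ y => ?_, fun z θ s y a1 a2 => ?_, fun i x hx θ s r y hs hr a1 a2 => ?_⟩
    · exact hiff (hI.periodic z θ y)
    · rw [zero_mul, Complex.ofReal_zero, zero_mul, Complex.exp_zero, one_mul]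
      exact hiff (hI.free z θ s y a1 a2)
    · rw [zero_mul, Complex.ofReal_zero, zero_mul, Complex.exp_zero, one_mul, one_mul]
      exact hiff (hI.reflect i x hx θ s r y hs hr a1 a2)
  have hFm : Measurable (A.indicator fun _ => (1 : ℂ)) := measurable_const.indicator hA
  have hmod : prodModulus p ν (A.indicator fun _ => (1 : ℂ)) = prodOm p ν A := by
    funext h
    unfold prodModulus prodOm
    refine lintegral_congr fun y => ?_
    have h1 := modulus_ind (p := p) (A := {x | (x, y) ∈ A})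
      (measurable_prodMk_right hA : MeasurableSet {x | (x, y) ∈ A}) h
    rw [← h1]
    rfl
  obtain ⟨m, hm, hmS, hmF, -⟩ := prod_main hp hS (χ := fun _ => 1) (fun i => by simp) hmono hsc
    hFm hE (by rw [hmod]; exact hM)
  refine ⟨{y | m y = 1}, hm (measurableSet_singleton 1), fun t y => ?_, ?_⟩
  · have h1 := hmS t y
    rw [zero_mul, Complex.ofReal_zero, zero_mul, Complex.exp_zero, one_mul] at h1
    simp only [mem_ofPred_eq, h1]
  · filter_upwards [hmF] with q hq
    simp only [← hq]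
    by_cases ha : q ∈ A
    · rw [indicator_of_mem ha]; simp [ha]
    · rw [indicator_of_notMem ha]; simp [ha]

end Pool.Agent.Zk91.PF
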